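import Mathlib

/-!
# MP_4eca41_an : convex C^2 Lusin approximation on the disc.  FIXED definitions.

Paper proof: /team-store/c2lusin_4eca41.md.  Points of the plane are pairs `z = (x, t)` (space side)
or `y = (p, t)` (side of the partial Legendre transform); all lengths are Euclidean and written with
the squared length `sq`.
-/

set_option autoImplicit false

open Set MeasureTheory

namespace Pool.Agent.MP_4eca41

/-- Squared Euclidean length. -/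
def sq (v : ℝ × ℝ) : ℝ := v.1 ^ 2 + v.2 ^ 2

/-- Closed Euclidean ball (radius `r`, used for `0 ≤ r`). -/
def cb (z : ℝ × ℝ) (r : ℝ) : Set (ℝ × ℝ) := {z' | sq (z' - z) ≤ r ^ 2}

/-- The open unit disc. -/
def disc : Set (ℝ × ℝ) := {z | sq z < 1}

/-- Second difference of `g` at `z` in the direction `v`. -/
def D2 (g : ℝ × ℝ → ℝ) (v z : ℝ × ℝ) : ℝ := g (z + v) + g (z - v) - 2 * g z

/-- Second difference of a function of one variable. -/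
def d2 (g : ℝ → ℝ) (h x : ℝ) : ℝ := g (x + h) + g (x - h) - 2 * g x

/-- Fields of first and second order coefficients: gradient `(p, s)`, Hessian `[[a, b], [b, c]]`. -/
structure Jets where
  /-- derivative in the first variable -/
  p : ℝ × ℝ → ℝ
  /-- derivative in the second variable -/
  s : ℝ × ℝ → ℝ
  /-- second derivative (1,1) -/
  a : ℝ × ℝ → ℝ
  /-- second derivative (1,2) -/
  b : ℝ × ℝ → ℝ
  /-- second derivative (2,2) -/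
  c : ℝ × ℝ → ℝ

/-- Quadratic Taylor polynomial without constant term: `J.q z v` is the value at `z + v`. -/
noncomputable def Jets.q (J : Jets) (z v : ℝ × ℝ) : ℝ :=
  J.p z * v.1 + J.s z * v.2 + (J.a z * v.1 ^ 2 + 2 * J.b z * v.1 * v.2 + J.c z * v.2 ^ 2) / 2

/-- `f` has uniform second order expansions on `K`, with continuous coefficients. -/
structure Exp2 (f : ℝ × ℝ → ℝ) (K : Set (ℝ × ℝ)) (J : Jets) : Prop where
  cp : ContinuousOn J.p K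
  cs : ContinuousOn J.s K
  ca : ContinuousOn J.a K
  cb : ContinuousOn J.b K
  cc : ContinuousOn J.c K
  ex : ∀ ε : ℝ, 0 < ε → ∃ δ : ℝ, 0 < δ ∧ ∀ z ∈ K, ∀ v : ℝ × ℝ, sq v ≤ δ ^ 2 →
    |f (z + v) - f z - J.q z v| ≤ ε * sq v

/-- Quadratic growth from both sides. -/
def Gr (f : ℝ × ℝ → ℝ) : Prop :=
  ∃ c C : ℝ, 0 < c ∧ ∀ z, c * sq z - C ≤ f z ∧ f z ≤ C * (1 + sq z)

/-- Partial Legendre transform in the first variable: `(p, t) ↦ inf_x (F (x, t) - p x)`. -/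
noncomputable def PL (F : ℝ × ℝ → ℝ) (y : ℝ × ℝ) : ℝ := ⨅ x : ℝ, (F (x, y.2) - y.1 * x)

/-- Inverse partial Legendre transform: `(x, t) ↦ sup_p (q (p, t) + p x)`. -/
noncomputable def PU (q : ℝ × ℝ → ℝ) (z : ℝ × ℝ) : ℝ := ⨆ p : ℝ, (q (p, z.2) + p * z.1)

/-- Growth on the Legendre side:
`c t^2 - C (1 + p^2) ≤ w (p, t) ≤ C (1 + t^2) - c p^2`. -/
def GrW (w : ℝ × ℝ → ℝ) : Prop :=
  ∃ c C : ℝ, 0 < c ∧ ∀ y : ℝ × ℝ, c * y.2 ^ 2 - C * (1 + y.1 ^ 2) ≤ w y ∧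
    w y ≤ C * (1 + y.2 ^ 2) - c * y.1 ^ 2

/-- The kernel `(35/32) (1 - s^2)^3` on `[-1, 1]`: even, nonnegative, integral one, of class `C^2`. -/
noncomputable def ker (s : ℝ) : ℝ := if |s| ≤ 1 then (35 / 32) * (1 - s ^ 2) ^ 3 else 0

/-- Double primitive in the first variable (second derivative in `p` is `β`). -/
noncomputable def BB (β : ℝ × ℝ → ℝ) (y : ℝ × ℝ) : ℝ := ∫ s in (0 : ℝ)..y.1, (y.1 - s) * β (s, y.2)

/-- The class `C(β)`: convex in `t`, second derivative in `p` at least `β`. -/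
def Cls (β q : ℝ × ℝ → ℝ) : Prop :=
  (∀ p, ConvexOn ℝ univ fun t => q (p, t)) ∧
    ∀ t, ConvexOn ℝ univ fun p => q (p, t) - BB β (p, t)

/-- Rotation of the plane by the angle `θ`. -/
noncomputable def rot (θ : ℝ) (z : ℝ × ℝ) : ℝ × ℝ :=
  (Real.cos θ * z.1 - Real.sin θ * z.2, Real.sin θ * z.1 + Real.cos θ * z.2)

/-- `w` has a second order expansion at the single point `y` with the given coefficients. -/
def ExpAt (w : ℝ × ℝ → ℝ) (y : ℝ × ℝ) (p s a b c : ℝ) : Prop :=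
  ∀ ε : ℝ, 0 < ε → ∃ δ : ℝ, 0 < δ ∧ ∀ v : ℝ × ℝ, sq v ≤ δ ^ 2 →
    |w (y + v) - w y - (p * v.1 + s * v.2 + (a * v.1 ^ 2 + 2 * b * v.1 * v.2 + c * v.2 ^ 2) / 2)|
      ≤ ε * sq v

/-- The first derivative in `p`. -/
noncomputable def Dp (W : ℝ × ℝ → ℝ) (y : ℝ × ℝ) : ℝ := deriv (fun p => W (p, y.2)) y.1

/-- The (almost everywhere defined) second derivative in `p`. -/
noncomputable def Dpp (W : ℝ × ℝ → ℝ) (y : ℝ × ℝ) : ℝ := deriv (fun p => Dp W (p, y.2)) y.1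

/-- The map `(x, t) ↦ (f_x (x, t), t)` to the Legendre side. -/
def Phi (J : Jets) (z : ℝ × ℝ) : ℝ × ℝ := (J.p z, z.2)

/-- The setting on the Legendre side (rank one part).  `S0` is the image of the rank one set,
`S ⊆ S0` the good points: they have nets of points of `S0` on their vertical line on both sides, and
on a vertical segment with ends in `S` on which `w (p, ·)` is affine the coefficient `J.a` is affine
along `S0`. -/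
structure WS (w : ℝ × ℝ → ℝ) (S0 S : Set (ℝ × ℝ)) (J : Jets) : Prop where
  cont : Continuous w
  conc : ∀ t, ConcaveOn ℝ univ fun p => w (p, t)
  conv : ∀ p, ConvexOn ℝ univ fun t => w (p, t)
  gr : GrW w
  c0 : IsCompact S0
  cS : IsCompact S
  sub : S ⊆ S0
  ex : Exp2 w S0 J
  neg : ∀ y ∈ S0, J.a y < 0
  tt : ∀ y ∈ S0, J.c y = 0
  net : ∃ r0 : ℝ, 0 < r0 ∧ ∀ y ∈ S, ∀ r : ℝ, 0 < r → r ≤ r0 →
    (∃ τ ∈ Icc (r / 2) r, (y.1, y.2 + τ) ∈ S0) ∧ ∃ τ ∈ Icc (r / 2) r, (y.1, y.2 - τ) ∈ S0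
  aff : ∀ p t1 t2 τ : ℝ, (p, t1) ∈ S → (p, t2) ∈ S → (p, τ) ∈ S0 → t1 < t2 → t1 ≤ τ → τ ≤ t2 →
    (∀ t ∈ Icc t1 t2, (t2 - t1) * w (p, t) = (t2 - t) * w (p, t1) + (t - t1) * w (p, t2)) →
    (t2 - t1) * J.a (p, τ) = (t2 - τ) * J.a (p, t1) + (τ - t1) * J.a (p, t2)

/-- The lower function `W0` (block C). -/
structure W0P (w W0 : ℝ × ℝ → ℝ) (S : Set (ℝ × ℝ)) (J : Jets) : Prop where
  cont : Continuous W0
  conv : ∀ p, ConvexOn ℝ univ fun t => W0 (p, t)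
  le : ∀ y, W0 y ≤ w y
  eq : ∀ y ∈ S, W0 y = w y
  gr : GrW W0
  sc : ∃ C : ℝ, ∀ (y : ℝ × ℝ) (h : ℝ), -C * h ^ 2 ≤ D2 W0 (h, 0) y
  near : ∀ κ : ℝ, 0 < κ → ∃ δ : ℝ, 0 < δ ∧ ∀ y ∈ S, ∀ z ∈ cb y δ, ∀ h : ℝ, |h| ≤ δ →
    (J.a y - κ) * h ^ 2 ≤ D2 W0 (h, 0) z
  low : ∀ κ : ℝ, 0 < κ → ∃ δ : ℝ, 0 < δ ∧ ∀ y ∈ S, ∀ v : ℝ × ℝ, sq v ≤ δ ^ 2 →
    w y + J.q y v - κ * sq v ≤ W0 (y + v)

/-- The upper barrier `Φ` (block D1). -/
structure UB (w W0 Φ : ℝ × ℝ → ℝ) (S : Set (ℝ × ℝ)) (J : Jets) : Prop where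
  cont : Continuous Φ
  ge : ∀ y, W0 y ≤ Φ y
  eq : ∀ y ∈ S, Φ y = w y
  gr : GrW Φ
  upp : ∃ M : ℝ, 0 < M ∧ ∀ v y : ℝ × ℝ, D2 Φ v y ≤ M * v.2 ^ 2 - v.1 ^ 2 / M
  up : ∀ κ : ℝ, 0 < κ → ∃ δ : ℝ, 0 < δ ∧ ∀ y ∈ S, ∀ v : ℝ × ℝ, sq v ≤ δ ^ 2 →
    Φ (y + v) ≤ w y + J.q y v + κ * sq v
  near : ∀ κ : ℝ, 0 < κ → ∃ δ : ℝ, 0 < δ ∧ ∀ y ∈ S, ∀ z ∈ cb y δ, ∀ h : ℝ, |h| ≤ δ →
    D2 Φ (h, 0) z ≤ (J.a y + κ) * h ^ 2

/-- The extremal function `W` of the class `C(β)` below `Φ` (block D2). -/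
structure Ext (W0 Φ W β : ℝ × ℝ → ℝ) (S : Set (ℝ × ℝ)) (J : Jets) : Prop where
  contβ : Continuous β
  bdβ : ∃ C c : ℝ, 0 < c ∧ ∀ y, -C ≤ β y ∧ β y ≤ -c
  eqβ : ∀ y ∈ S, β y = J.a y
  cont : Continuous W
  ge : ∀ y, W0 y ≤ W y
  le : ∀ y, W y ≤ Φ y
  cls : Cls β W
  max : ∀ q : ℝ × ℝ → ℝ, Continuous q → Cls β q → (∀ y, q y ≤ Φ y) → ∀ y, q y ≤ W y
  upp : ∃ M : ℝ, 0 < M ∧ ∀ v y : ℝ × ℝ, D2 W v y ≤ M * v.2 ^ 2 - v.1 ^ 2 / M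

/-- The two sided control of the extremal function needed for the smoothing (input of block F). -/
structure Sm (W β : ℝ × ℝ → ℝ) (S : Set (ℝ × ℝ)) (J : Jets) : Prop where
  cS : IsCompact S
  ca : ContinuousOn J.a S
  cb : ContinuousOn J.b S
  cp : ContinuousOn J.p S
  cs : ContinuousOn J.s S
  tt : ∀ y ∈ S, J.c y = 0
  cont : Continuous W
  conv : ∀ p, ConvexOn ℝ univ fun t => W (p, t)
  contβ : Continuous β
  bdβ : ∃ C c : ℝ, 0 < c ∧ ∀ y, -C ≤ β y ∧ β y ≤ -c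
  eqβ : ∀ y ∈ S, β y = J.a y
  cls : Cls β W
  upp : ∃ M : ℝ, 0 < M ∧ ∀ v y : ℝ × ℝ, D2 W v y ≤ M * v.2 ^ 2 - v.1 ^ 2 / M
  con : ∀ κ : ℝ, 0 < κ → ∃ δ : ℝ, 0 < δ ∧ ∀ y ∈ S, ∀ v : ℝ × ℝ, sq v ≤ δ ^ 2 →
    |W (y + v) - W y - J.q y v| ≤ κ * sq v
  est : ∀ y ∈ S, ∀ κ : ℝ, 0 < κ → ∃ l0 : ℝ, 0 < l0 ∧ ∀ l : ℝ, 0 < l → l < l0 →
    ∃ δ : ℝ, 0 < δ ∧ ∀ᵐ z : ℝ × ℝ, z ∈ Pool.Agent.MP_4eca41.cb y δ →
      Dpp W z ≤ max (J.a y + κ) ((∫ σ in (z.2 - l)..(z.2 + l), Dpp W (z.1, σ)) / (2 * l))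

end Pool.Agent.MP_4eca41
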