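import Pool.Agent.Work.MP_4eca41_an.Defs
import Pool.Agent.Work.MP_4eca41_an.A.Main

/-!
# Block A (reduction + Alexandrov + Lusin/Egorov + rotation), paper section A
-/

set_option autoImplicit false

open Set MeasureTheory

namespace Pool.Agent.MP_4eca41

theorem blockA (f0 : ℝ × ℝ → ℝ) (h0 : ConvexOn ℝ disc f0) (ε : ℝ) (hε : 0 < ε) :
    ∃ (θ : ℝ) (f : ℝ × ℝ → ℝ) (K0 K1 K2 : Set (ℝ × ℝ)) (J : Jets),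
      ConvexOn ℝ univ f ∧ Gr f ∧ IsCompact K0 ∧ IsCompact K1 ∧ IsCompact K2 ∧
      K0 ⊆ disc ∧ K1 ⊆ disc ∧ K2 ⊆ disc ∧
      Exp2 f K0 J ∧ Exp2 f K1 J ∧ Exp2 f K2 J ∧
      (∀ z ∈ K0, J.a z = 0 ∧ J.b z = 0 ∧ J.c z = 0) ∧
      (∀ z ∈ K1, 0 < J.a z ∧ J.a z * J.c z = J.b z ^ 2) ∧
      (∀ z ∈ K2, 0 < J.a z ∧ J.b z ^ 2 < J.a z * J.c z) ∧
      (∀ z ∈ K0 ∪ K1 ∪ K2, f z = f0 (rot θ z)) ∧
      volume (disc \ (K0 ∪ K1 ∪ K2)) < ENNReal.ofReal ε :=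
  A.main f0 h0 ε hε

end Pool.Agent.MP_4eca41
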