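import Pool.Agent.Work.MP_4eca41_an.Defs
import Pool.Agent.Work.MP_4eca41_an.L.Leg1
import Pool.Agent.Work.MP_4eca41_an.B.TrA
import Pool.Agent.Work.MP_4eca41_an.B.Mes
import Pool.Agent.Work.MP_4eca41_an.B.Sel
import Pool.Agent.Work.MP_4eca41_an.B.AffC
import Pool.Agent.Work.MP_4eca41_an.B.Zer

/-!
# Block B (partial Legendre transform of the rank one set), paper section B
-/

set_option autoImplicit false

open Set MeasureTheory

namespace Pool.Agent.MP_4eca41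

theorem blockB (f : ℝ × ℝ → ℝ) (hf : ConvexOn ℝ univ f) (hg : Gr f)
    (K1 : Set (ℝ × ℝ)) (hK1 : IsCompact K1) (J : Jets) (hE : Exp2 f K1 J)
    (h1 : ∀ z ∈ K1, 0 < J.a z ∧ J.a z * J.c z = J.b z ^ 2)
    (K0 : Set (ℝ × ℝ)) (hK0 : IsCompact K0) (J0 : Jets) (hE0 : Exp2 f K0 J0)
    (h0 : ∀ z ∈ K0, J0.a z = 0 ∧ J0.b z = 0 ∧ J0.c z = 0) (ε : ℝ) (hε : 0 < ε) :
    ∃ (K1' : Set (ℝ × ℝ)) (JW : Jets), IsCompact K1' ∧ K1' ⊆ K1 ∧
      volume (K1 \ K1') < ENNReal.ofReal ε ∧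
      WS (PL f) (Phi J '' K1) (Phi J '' K1') JW ∧
      (∀ z ∈ K1, PL f (Phi J z) = f z - J.p z * z.1 ∧ JW.p (Phi J z) = -z.1 ∧
        JW.s (Phi J z) = J.s z ∧ JW.a (Phi J z) = -1 / J.a z ∧
        JW.b (Phi J z) = J.b z / J.a z ∧ JW.c (Phi J z) = 0) ∧
      (∃ C : ℝ, 0 < C ∧ ∀ N : Set (ℝ × ℝ), MeasurableSet N → N ⊆ Phi J '' K1 →
        volume (K1 ∩ Phi J ⁻¹' N) ≤ ENNReal.ofReal C * volume N) ∧
      ∀ z ∈ K1', ∀ y ∈ K0, f y + J0.p y * (z.1 - y.1) + J0.s y * (z.2 - y.2) < f z := by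
  have ha : ∀ z ∈ K1, 0 < J.a z := fun z hz => (h1 z hz).1
  have hlow : Low f := low_of_gr f hg
  obtain ⟨hinj, hcont, JW, hEW, hJW⟩ := B.tr_unif hf hg hK1 hE ha
  have hJW' : ∀ z ∈ K1, PL f (Phi J z) = f z - J.p z * z.1 ∧ JW.p (Phi J z) = -z.1 ∧
        JW.s (Phi J z) = J.s z ∧ JW.a (Phi J z) = -1 / J.a z ∧
        JW.b (Phi J z) = J.b z / J.a z ∧ JW.c (Phi J z) = 0 := by
    intro z hz
    obtain ⟨e1, e2, e3, e4, e5, e6⟩ := hJW z hz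
    refine ⟨e1, e2, e3, e4, e5, ?_⟩
    rw [e6, ← (h1 z hz).2]
    have := ha z hz
    field_simp
    ring
  obtain ⟨C, hC, hmes⟩ := B.mes_bd hf hK1 hE ha
  have hS0 : IsCompact (Phi J '' K1) := hK1.image_of_continuousOn hcont
  have hwc : Continuous (PL f) := pl_continuous f hf hg
  have hwconv : ∀ p, ConvexOn ℝ univ fun t => PL f (p, t) := pl_conv f hf hlow
  have hεC : (0 : ENNReal) < ENNReal.ofReal (ε / C) := by
    rw [ENNReal.ofReal_pos]; positivity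
  obtain ⟨S', hS'c, hS'sub, hS'v, ⟨r0, hr0, hnet⟩, hgood⟩ := B.sel hwc hwconv hS0 hεC
  have hKc : IsCompact (K1 ∩ Phi J ⁻¹' S') := by
    have hcl : IsClosed (K1 ∩ Phi J ⁻¹' S') :=
      hcont.preimage_isClosed_of_isClosed hK1.isClosed hS'c.isClosed
    exact hK1.of_isClosed_subset hcl inter_subset_left
  have himg : Phi J '' (K1 ∩ Phi J ⁻¹' S') = S' := by
    ext y
    constructor
    · rintro ⟨z, hz, rfl⟩
      exact hz.2
    · intro hy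
      obtain ⟨z, hz, rfl⟩ := hS'sub hy
      exact ⟨z, ⟨hz, hy⟩, rfl⟩
  refine ⟨K1 ∩ Phi J ⁻¹' S', JW, hKc, inter_subset_left, ?_, ?_, hJW', ⟨C, hC, hmes⟩, ?_⟩
  · have hsub : K1 \ (K1 ∩ Phi J ⁻¹' S') ⊆ K1 ∩ Phi J ⁻¹' (Phi J '' K1 \ S') := by
      intro z hz
      refine ⟨hz.1, ⟨z, hz.1, rfl⟩, fun h => hz.2 ⟨hz.1, h⟩⟩
    calc volume (K1 \ (K1 ∩ Phi J ⁻¹' S')) ≤ volume (K1 ∩ Phi J ⁻¹' (Phi J '' K1 \ S')) :=
          measure_mono hsub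
      _ ≤ ENNReal.ofReal C * volume (Phi J '' K1 \ S') :=
          hmes _ (hS0.measurableSet.diff hS'c.measurableSet) diff_subset
      _ < ENNReal.ofReal C * ENNReal.ofReal (ε / C) := by
          apply ENNReal.mul_lt_mul_right _ _ hS'v
          · rw [Ne, ENNReal.ofReal_eq_zero]; linarith
          · exact ENNReal.ofReal_ne_top
      _ = ENNReal.ofReal ε := by
          rw [← ENNReal.ofReal_mul hC.le]
          congr 1
          field_simp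
  · rw [himg]
    refine ⟨hwc, pl_conc f hlow, hwconv, pl_gr f hg, hS0, hS'c, hS'sub, hEW, ?_, ?_, ?_, ?_⟩
    · rintro _ ⟨z, hz, rfl⟩
      rw [(hJW' z hz).2.2.2.1, neg_div]
      have := ha z hz
      exact neg_neg_of_pos (by positivity)
    · rintro _ ⟨z, hz, rfl⟩
      exact (hJW' z hz).2.2.2.2.2
    · exact ⟨r0, hr0, fun y hy r hr hrr => hnet y hy r hr hrr⟩
    · intro p t1 t2 τ m1 m2 mτ h12 hτ1 hτ2 haff
      exact B.aff_rel hEW (hS'sub m1) (hgood _ m1) (hS'sub m2) (hgood _ m2) mτ h12 hτ1 hτ2 haff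
  · intro z hz y hy
    have hzz : ExpAt f z (J.p z) (J.s z) (J.a z) (J.b z) (J.c z) := B.expAt_of_exp2 hE hz.1
    have hyy : ExpAt f y (J0.p y) (J0.s y) 0 0 0 := by
      have h := B.expAt_of_exp2 hE0 hy
      obtain ⟨e1, e2, e3⟩ := h0 y hy
      rwa [e1, e2, e3] at h
    exact B.no_zero hf hg hzz (ha z hz.1) (hgood _ hz.2) hyy

end Pool.Agent.MP_4eca41
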