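import Pool.Agent.Work.MP_4eca41_an.C.CBar
import Pool.Agent.Work.MP_4eca41_an.C.CSup
import Pool.Agent.Work.MP_4eca41_an.C.CNear

/-!
# Block C (assembly), paper section C

PROOF.  If `S` is nonempty: `exists_rho`, `exists_bar`, `W0 = W00 S q`, `bar_sup` (fields cont, conv, le, eq, gr, sc, low), `bar_near` (field near),
`bar_strict`.  If `S` is empty: `W0 z = c z.2^2 - C (1 + z.1^2) - 1` with `c, C` from `h.gr` (`C ≥ 0` wlog): continuous, convex in `t`, `≤ w - 1 < w`,
`GrW` (upper bound from `W0 ≤ w`), `D2 W0 (h,0) z = -2 C h^2`; the other fields are vacuous.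
-/

set_option autoImplicit false

open Set MeasureTheory

namespace Pool.Agent.MP_4eca41

theorem blockC (w : ℝ × ℝ → ℝ) (S0 S : Set (ℝ × ℝ)) (J : Jets) (h : WS w S0 S J) :
    ∃ W0 : ℝ × ℝ → ℝ, W0P w W0 S J ∧
      ∀ (y : ℝ × ℝ) (p s a b c : ℝ), ExpAt w y p s a b c → a < 0 → 0 < c → W0 y < w y := by
  rcases S.eq_empty_or_nonempty with hS | hne
  · subst hS
    obtain ⟨c, C, hc, hw⟩ := h.gr
    have hCC : C ≤ max C 0 := le_max_left _ _
    have hC0 : 0 ≤ max C 0 := le_max_right _ _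
    set D : ℝ := max C 0 with hD
    have hlt : ∀ y : ℝ × ℝ, c * y.2 ^ 2 - D * (1 + y.1 ^ 2) - 1 < w y := by
      intro y
      have h1 := (hw y).1
      nlinarith [sq_nonneg y.1]
    refine ⟨fun y => c * y.2 ^ 2 - D * (1 + y.1 ^ 2) - 1, ⟨by fun_prop, ?_, ?_, ?_, ?_, ?_, ?_, ?_⟩,
      ?_⟩
    · intro p
      refine ⟨convex_univ, ?_⟩
      intro x _ y _ a b ha hb hab
      simp only [smul_eq_mul]
      have hb1 : b = 1 - a := by linarith
      subst hb1
      nlinarith [mul_nonneg (mul_nonneg ha hb) (mul_nonneg hc.le (sq_nonneg (x - y)))]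
    · intro y
      exact (hlt y).le
    · intro y hy
      exact absurd hy (notMem_empty y)
    · refine ⟨c, D + 1, hc, fun y => ⟨?_, ?_⟩⟩
      · nlinarith [sq_nonneg y.1]
      · have h1 := (hw y).2
        have h2 := hlt y
        simp only
        nlinarith [sq_nonneg y.2, mul_nonneg (sub_nonneg.2 hCC) (sq_nonneg y.2)]
    · refine ⟨2 * D, fun y k => ?_⟩
      simp only [D2, Prod.fst_add, Prod.snd_add, Prod.fst_sub, Prod.snd_sub, add_zero, sub_zero]
      nlinarith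
    · intro κ _
      exact ⟨1, one_pos, fun y hy => absurd hy (notMem_empty y)⟩
    · intro κ _
      exact ⟨1, one_pos, fun y hy => absurd hy (notMem_empty y)⟩
    · intro y _ _ _ _ _ _ _ _
      exact hlt y
  · obtain ⟨ρ, hρ⟩ := exists_rho w h.cont S0 h.c0 J h.ex
    obtain ⟨lam, c, C, Lam, q, hb⟩ := exists_bar w S0 S J h ρ hρ
    obtain ⟨h1, h2, h3, h4, h5, h6, h7, h8⟩ := bar_sup w S0 S J h ρ hρ lam c C Lam q hb hne
    exact ⟨W00 S q, ⟨h1, h2, h3, h4, h5, h6, bar_near w S0 S J h ρ hρ lam c C Lam q hb hne h1 h4 h8,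
      h7⟩, fun y p s a b c' he ha hc' =>
        bar_strict w S0 S J h ρ hρ lam c C Lam q hb hne y p s a b c' he ha hc'⟩

end Pool.Agent.MP_4eca41
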