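import Pool.Agent.Work.MP_4eca41_an.L.Leg2

/-!
# Block D0 (strict inequality at points of rank 0 and 2), paper section D0

PROOF.  `PU W0 z ≤ PU (PL f) z = f z` (`W0 ≤ PL f`, `pu_le_add` with `η = 0`, `pu_pl`).  Suppose `PU W0 z ≥ f z`.  By `pu_attained` there is `p'` with
`W0 (p', z.2) + p' z.1 = f z` (x0 = z.1, t0 = z.2).  Since `W0 ≤ PL f` and `PL f (p',t0) ≤ f (x,t0) - p' x` for all `x` (`pl_le`): `W0 (p',t0) = PL f (p',t0)` (take `x = x0`) and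
`f z + p' (x - x0) ≤ f (x, t0)` for all `x`, so `p' = p` (`exp_tangent_x`).
Rank 2: `exp_pl_at` gives `ExpAt (PL f) (p,t0) (-x0) s (-1/a) (b/a) (c - b^2/a)`, `-1/a < 0 < c - b^2/a`, so `W0 (p,t0) < PL f (p,t0)` by `hs`: contradiction.
Rank 0: by `h0.sc` (constant `C`, wlog `C > 0`): `W0 (p+h,t0) + W0 (p-h,t0) ≥ 2 W0 (p,t0) - C h^2`; and `W0 (p-h,t0) + (p-h) x0 ≤ PU W0 z ≤ f z = W0 (p,t0) + p x0` (`le_pu`), so
`W0 (p+h,t0) + (p+h) x0 ≥ f z - C h^2` for every `h`.  Hence for every `ξ` (with `h = ξ/(2C)`):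
`f (x0+ξ,t0) ≥ PU W0 (x0+ξ,t0) ≥ W0 (p+h,t0) + (p+h)(x0+ξ) ≥ f z - C h^2 + p ξ + h ξ = f z + p ξ + ξ^2/(4C)`.  The expansion with `a = 0` and `ε < 1/(4C)` contradicts this for small `ξ ≠ 0`.
-/

set_option autoImplicit false

open Set MeasureTheory

namespace Pool.Agent.MP_4eca41

theorem blockD0 (f : ℝ × ℝ → ℝ) (hf : ConvexOn ℝ univ f) (hg : Gr f)
    (S : Set (ℝ × ℝ)) (JW : Jets) (W0 : ℝ × ℝ → ℝ) (h0 : W0P (PL f) W0 S JW)
    (hs : ∀ (y : ℝ × ℝ) (p s a b c : ℝ), ExpAt (PL f) y p s a b c → a < 0 → 0 < c →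
      W0 y < PL f y)
    (z : ℝ × ℝ) (p s a b c : ℝ) (hz : ExpAt f z p s a b c)
    (hr : (a = 0 ∧ b = 0 ∧ c = 0) ∨ (0 < a ∧ b ^ 2 < a * c)) :
    PU W0 z < f z := by
  have hF : Low f := low_of_gr f hg
  have hup : ∀ (q : ℝ) (x : ℝ), W0 (q, z.2) + q * x ≤ f (x, z.2) := by
    intro q x
    have h1 := h0.le (q, z.2)
    have h2 := pl_le f hF (q, z.2) x
    simp only at h2
    linarith
  by_contra hcon
  rw [not_lt] at hcon
  obtain ⟨p', hp'⟩ := pu_attained W0 h0.cont h0.gr z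
  have hz1 : f (z.1, z.2) = f z := rfl
  have hW : W0 (p', z.2) + p' * z.1 = f z := by
    have h1 := hup p' z.1
    rw [hz1] at h1
    linarith
  have htan : ∀ x, f z + p' * (x - z.1) ≤ f (x, z.2) := by
    intro x
    have h1 := hup p' x
    nlinarith
  have hpp : p' = p := exp_tangent_x f z p s a b c hz p' htan
  subst hpp
  rcases hr with ⟨ha, hb, hc⟩ | ⟨ha, hbac⟩
  · subst ha
    subst hb
    subst hc
    obtain ⟨C, hC⟩ := h0.sc
    obtain ⟨C0, hC0, hC0'⟩ : ∃ C0 : ℝ, 0 < C0 ∧ C ≤ C0 :=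
      ⟨|C| + 1, by positivity, by linarith [le_abs_self C]⟩
    obtain ⟨δ, hδ, hex⟩ := hz (1 / (8 * C0)) (by positivity)
    have h1 := hex (δ, 0) (by simp [sq])
    have e1 : z + (δ, 0) = (z.1 + δ, z.2) := by
      ext <;> simp
    have e2 : sq ((δ, 0) : ℝ × ℝ) = δ ^ 2 := by simp [sq]
    rw [e1, e2] at h1
    have h2 := (abs_le.1 h1).2
    simp only at h2
    -- lower bound
    have h3 := hC (p', z.2) (δ / (2 * C0))
    have e3 : D2 W0 (δ / (2 * C0), 0) (p', z.2) = W0 (p' + δ / (2 * C0), z.2) +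
        W0 (p' - δ / (2 * C0), z.2) - 2 * W0 (p', z.2) := by
      unfold D2
      have e4 : ((p', z.2) : ℝ × ℝ) + (δ / (2 * C0), 0) = (p' + δ / (2 * C0), z.2) := by
        ext <;> simp
      have e5 : ((p', z.2) : ℝ × ℝ) - (δ / (2 * C0), 0) = (p' - δ / (2 * C0), z.2) := by
        ext <;> simp
      rw [e4, e5]
    rw [e3] at h3
    have h4 := hup (p' - δ / (2 * C0)) z.1
    rw [hz1] at h4
    have h5 := hup (p' + δ / (2 * C0)) (z.1 + δ)
    have h6 : C * (δ / (2 * C0)) ^ 2 ≤ C0 * (δ / (2 * C0)) ^ 2 :=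
      mul_le_mul_of_nonneg_right hC0' (sq_nonneg _)
    have h7 : C0 * (δ / (2 * C0)) ^ 2 = δ ^ 2 / (4 * C0) := by
      field_simp
      ring
    have h8 : δ / (2 * C0) * δ = δ ^ 2 / (2 * C0) := by
      field_simp
    have h9 : δ ^ 2 / (2 * C0) = 2 * (δ ^ 2 / (4 * C0)) := by
      field_simp
      ring
    have h10 : 1 / (8 * C0) * δ ^ 2 = δ ^ 2 / (4 * C0) / 2 := by
      field_simp
      ring
    have h11 : 0 < δ ^ 2 / (4 * C0) := by positivity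
    generalize δ / (2 * C0) = h at *
    generalize δ ^ 2 / (4 * C0) = A at *
    nlinarith
  · obtain ⟨h1, -, h2⟩ := exp_pl_at f hf hg z p' s a b c hz ha
    have h3 := hs _ _ _ _ _ _ h2 (by
      rw [neg_div]
      exact neg_neg_of_pos (by positivity)) (by
      rw [sub_pos, div_lt_iff₀ ha]
      linarith)
    rw [h1] at h3
    linarith

end Pool.Agent.MP_4eca41
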