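import Pool.Agent.Work.MP_4eca41_an.D.D1A
import Pool.Agent.Work.MP_4eca41_an.D.D1D

/-!
# Block D1 (the upper barrier), paper section D1 (assembly)

PROOF.  `ft = PU W0`: convex (`pu_conv`), `ft ≤ PU (PL f) = f` (`pu_le_add`, `pu_pl`), `Low ft` (`pu_lower`).  `exists_memF` gives the families, `F = FF …`, `Φ = PL F`.  `F` continuous, `Low F` (`ft ≤ F`),
`F ≤ mem3 ≤ (C+1)(1 + sq z)`, `D2 F v z ≤ M sq v`.  cont: `sc_continuous`; gr: `sc_gr`; upp: `sc_upp`.  ge: `W0 y ≤ PL ft y ≤ PL F y` (`le_pl_pu`, `pl_mono`).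
eq: for `y = Phi J z1`: `Φ y ≤ F z1 - J.p z1 z1.1 ≤ mem1 z1 z1 - … = f z1 - J.p z1 z1.1 = PL f y` (`θ 0 = 0`, `J.q z1 0 = 0`) and `Φ y ≥ W0 y = PL f y` (`h0.eq`).  up: `d1_up`; near: `d1_near`.
push: `PU Φ z ≤ F z` (`pu_pl_le`) `≤ mem2 z z = ft z + η ≤ f z - η` for `z ∈ K'` (`m2'`).
-/

set_option autoImplicit false

open Set MeasureTheory

namespace Pool.Agent.MP_4eca41

theorem blockD1 (f : ℝ × ℝ → ℝ) (hf : ConvexOn ℝ univ f) (hg : Gr f)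
    (K1 : Set (ℝ × ℝ)) (hK1 : IsCompact K1) (J : Jets) (hE : Exp2 f K1 J)
    (h1 : ∀ z ∈ K1, 0 < J.a z ∧ J.a z * J.c z = J.b z ^ 2)
    (JW : Jets) (hJW : ∀ z ∈ K1, PL f (Phi J z) = f z - J.p z * z.1 ∧ JW.p (Phi J z) = -z.1 ∧
        JW.s (Phi J z) = J.s z ∧ JW.a (Phi J z) = -1 / J.a z ∧
        JW.b (Phi J z) = J.b z / J.a z ∧ JW.c (Phi J z) = 0)
    (W0 : ℝ × ℝ → ℝ) (h0 : W0P (PL f) W0 (Phi J '' K1) JW)
    (K' : Set (ℝ × ℝ)) (hK' : IsCompact K') (hs : ∀ z ∈ K', PU W0 z < f z) :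
    ∃ Φ : ℝ × ℝ → ℝ, UB (PL f) W0 Φ (Phi J '' K1) JW ∧
      ∃ η : ℝ, 0 < η ∧ ∀ z ∈ K', PU Φ z ≤ f z - η := by
  have hft : ConvexOn ℝ univ (PU W0) := pu_conv W0 h0.gr h0.conv
  have hle : ∀ z, PU W0 z ≤ f z := by
    intro z
    have h2 := pu_le_add W0 (PL f) (pl_gr f hg) 0 (fun y => by simpa using h0.le y) z
    rw [pu_pl f hf hg z] at h2
    simpa using h2
  have hlow : Low (PU W0) := pu_lower W0 h0.gr
  obtain ⟨θ, η, M', C, M, h⟩ := exists_memF f hf hg K1 hK1 J hE (PU W0) hft hle K' hK' hs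
  have hFc := ff_continuous f hf K1 hK1 J hE (PU W0) hft hle K' hK' θ η M' C M h
  have hFD := ff_D2 f hf K1 hK1 J hE (PU W0) hft hle K' hK' θ η M' C M h
  have hFle := ff_le f hf K1 hK1 J hE (PU W0) hft hle K' hK' θ η M' C M h
  have hFl : Low (FF f (PU W0) K1 K' J θ η M' C) := by
    obtain ⟨c, C', hc, h3⟩ := hlow
    exact ⟨c, C', hc, fun z => (h3 z).trans (hFle z).2.2.2⟩
  have hC1 : 0 < C + 1 := by linarith [h.C0]
  have hFu : ∀ z, FF f (PU W0) K1 K' J θ η M' C z ≤ (C + 1) * (1 + sq z) := by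
    intro z
    have h3 := (hFle z).2.2.1
    have h4 : 0 ≤ sq z := by unfold sq; positivity
    unfold mem3 at h3
    nlinarith
  have hge : ∀ y, W0 y ≤ PL (FF f (PU W0) K1 K' J θ η M' C) y := fun y =>
    (le_pl_pu W0 h0.gr y).trans (pl_mono _ _ hlow (fun z => (hFle z).2.2.2) y)
  have heq : ∀ y ∈ Phi J '' K1, PL (FF f (PU W0) K1 K' J θ η M' C) y = PL f y := by
    rintro y ⟨z1, hz1, rfl⟩
    have h5 := pl_le _ hFl (Phi J z1) z1.1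
    have h6 := (hFle z1).1 z1 hz1
    have h7 := (hJW z1 hz1).1
    have h8 := h0.eq (Phi J z1) ⟨z1, hz1, rfl⟩
    have h9 := hge (Phi J z1)
    have e1 : mem1 f J θ z1 z1 = f z1 := by
      unfold mem1
      rw [sub_self, h.θ0]
      simp [Jets.q]
    rw [e1] at h6
    have e2 : ((z1.1, (Phi J z1).2) : ℝ × ℝ) = z1 := rfl
    have e3 : (Phi J z1).1 = J.p z1 := rfl
    rw [e2, e3] at h5
    linarith
  refine ⟨PL (FF f (PU W0) K1 K' J θ η M' C), ⟨?_, hge, heq, ?_, ?_, ?_, ?_⟩, η, h.η0, ?_⟩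
  · exact sc_continuous _ hFc hFl M (C + 1) h.M0 hC1 hFD hFu
  · exact sc_gr _ hFc hFl (C + 1) hC1 hFu
  · exact ⟨M, h.M0, fun v y => sc_upp _ hFc hFl M h.M0 hFD v y⟩
  · exact d1_up f hf hg K1 hK1 J hE h1 JW hJW W0 h0 K' hK' θ η M' C M h
  · exact d1_near f hf hg K1 hK1 J hE h1 JW hJW W0 h0 K' hK' θ η M' C M h heq
  · intro z hz
    have h5 := pu_pl_le _ hFl z
    have h6 := (hFle z).2.1 z hz
    have h7 := h.m2' z hz
    have e1 : mem2 (PU W0) η M' z z = PU W0 z + η := by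
      unfold mem2
      rw [sub_self]
      simp [sq]
    rw [e1] at h6
    linarith

end Pool.Agent.MP_4eca41
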