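import Pool.Agent.Work.MP_4eca41_an.D.D2A
import Pool.Agent.Work.MP_4eca41_an.D.D2C
import Pool.Agent.Work.MP_4eca41_an.D.D2D

/-!
# Block D2 (the extremal function and its regularity), paper section D2 (assembly)

PROOF.  `M` from `h1.upp`, `δ = 1/(2M)`; `exists_reg`, `exists_W`, `regularity` (`Φ = w = W0` on `S`).  `D2 W v y ≤ (M + δ) v.2^2 - (1/M - δ) v.1^2 ≤ M2 v.2^2 - v.1^2/M2` with `M2 = 2 M + 1/M`.
-/

set_option autoImplicit false

open Set MeasureTheory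

namespace Pool.Agent.MP_4eca41

theorem blockD2 (w W0 Φ : ℝ × ℝ → ℝ) (S : Set (ℝ × ℝ)) (J : Jets) (hS : IsCompact S)
    (hJ : ContinuousOn J.a S) (hn : ∀ y ∈ S, J.a y < 0)
    (h0 : W0P w W0 S J) (h1 : UB w W0 Φ S J) :
    ∃ β W : ℝ × ℝ → ℝ, Ext W0 Φ W β S J := by
  obtain ⟨M, hM, hupp⟩ := h1.upp
  have hδ : 0 < 1 / (2 * M) := by positivity
  obtain ⟨β, c, s, hR⟩ := exists_reg w W0 Φ S J hS hJ hn h0 h1 (1 / (2 * M)) hδ
  obtain ⟨W, hWc, hge, hle, hcls, hmax⟩ := exists_W W0 Φ β S J (1 / (2 * M)) c s hR h0.cont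
    h0.conv h1.cont h1.ge
  have hSe : ∀ z ∈ S, Φ z = W0 z := fun z hz => by rw [h1.eq z hz, h0.eq z hz]
  have hreg := regularity W0 Φ W β S J (1 / (2 * M)) c s hR h0.cont h0.conv h1.cont hSe M hM hupp
    hWc hge hle hcls hmax
  refine ⟨β, W, ⟨hR.cont, ?_, hR.eq, hWc, hge, hle, hcls, hmax, 2 * M + 1 / M, by positivity, ?_⟩⟩
  · obtain ⟨C, c0, hc0, hb⟩ := hR.bd
    exact ⟨C, c0, hc0, hb⟩
  · intro v y
    have h := hreg v y
    have e1 : 1 / (2 * M) * sq v = 1 / (2 * M) * v.2 ^ 2 + v.1 ^ 2 / (2 * M) := by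
      unfold sq; ring
    have e2 : v.1 ^ 2 / M = v.1 ^ 2 / (2 * M) + v.1 ^ 2 / (2 * M) := by
      field_simp; ring
    have e3 : v.1 ^ 2 / (2 * M + 1 / M) ≤ v.1 ^ 2 / (2 * M) := by
      apply div_le_div_of_nonneg_left (sq_nonneg _) (by positivity)
      have : 0 < 1 / M := by positivity
      linarith
    have e4 : 1 / (2 * M) * v.2 ^ 2 ≤ (M + 1 / M) * v.2 ^ 2 := by
      apply mul_le_mul_of_nonneg_right _ (sq_nonneg _)
      have h5 : 1 / (2 * M) ≤ 1 / M := by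
        apply one_div_le_one_div_of_le hM
        linarith
      linarith
    rw [e1, e2] at h
    nlinarith

end Pool.Agent.MP_4eca41
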