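import Pool.Agent.Work.MP_4eca41_an.E.Est

/-!
# Block E (Perron type estimate for the second derivative), paper section E
-/

set_option autoImplicit false

open Set MeasureTheory

namespace Pool.Agent.MP_4eca41

theorem blockE (w W0 Φ W β : ℝ × ℝ → ℝ) (S : Set (ℝ × ℝ)) (J : Jets) (hS : IsCompact S)
    (hE : Exp2 w S J) (hn : ∀ y ∈ S, J.a y < 0) (hc : ∀ y ∈ S, J.c y = 0)
    (h0 : W0P w W0 S J) (h1 : UB w W0 Φ S J) (h2 : Ext W0 Φ W β S J) :
    Sm W β S J := by
  obtain ⟨Cβ, cβ, hcβ, hbβ⟩ := h2.bdβ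
  obtain ⟨M, hM, hupp⟩ := h2.upp
  obtain ⟨C, hC⟩ := c11_of_ext W β h2.cont h2.contβ ⟨Cβ, fun y => (hbβ y).1⟩ h2.cls h2.upp
  have hEE : E.EE C W Φ β :=
    { c11 := hC
      contΦ := h1.cont
      contβ := h2.contβ
      le := h2.le
      cls := h2.cls
      max := h2.max
      conc := by
        intro h y
        have h3 := hupp (h, 0) y
        have h4 : 0 ≤ (h : ℝ) ^ 2 / M := by positivity
        simp only at h3
        linarith
      gr := by
        obtain ⟨c, C', hc', hg⟩ := h0.gr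
        exact ⟨c, C', hc', fun y => le_trans (hg y).1 (h2.ge y)⟩ }
  have hWS : ∀ y ∈ S, W y = w y := fun y hy =>
    le_antisymm (le_trans (h2.le y) (le_of_eq (h1.eq y hy)))
      (le_trans (le_of_eq (h0.eq y hy).symm) (h2.ge y))
  refine
    { cS := hS
      ca := hE.ca
      cb := hE.cb
      cp := hE.cp
      cs := hE.cs
      tt := hc
      cont := h2.cont
      conv := h2.cls.1
      contβ := h2.contβ
      bdβ := h2.bdβ
      eqβ := h2.eqβ
      cls := h2.cls
      upp := h2.upp
      con := ?_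
      est := ?_ }
  · intro κ hκ
    obtain ⟨δ1, hδ1, hl⟩ := h0.low κ hκ
    obtain ⟨δ2, hδ2, hu⟩ := h1.up κ hκ
    refine ⟨min δ1 δ2, lt_min hδ1 hδ2, fun y hy v hv => ?_⟩
    have hm : 0 < min δ1 δ2 := lt_min hδ1 hδ2
    have h3 := hl y hy v (le_trans hv (pow_le_pow_left₀ hm.le (min_le_left _ _) 2))
    have h4 := hu y hy v (le_trans hv (pow_le_pow_left₀ hm.le (min_le_right _ _) 2))
    have h5 := h2.ge (y + v)
    have h6 := h2.le (y + v)
    rw [hWS y hy, abs_le]
    constructor <;> linarith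
  · intro y hy κ hκ
    rcases le_or_gt (J.a y + κ / 2) 0 with hm | hm
    · obtain ⟨δ1, hδ1, hnear⟩ := h1.near (κ / 2) (by positivity)
      have hcont := h2.contβ.continuousAt (x := y)
      have hlt : β y < J.a y + κ / 2 := by rw [h2.eqβ y hy]; linarith
      have hev : ∀ᶠ z in nhds y, β z < J.a y + κ / 2 := hcont.eventually (gt_mem_nhds hlt)
      obtain ⟨r, hr, hball⟩ := Metric.eventually_nhds_iff.1 hev
      set δ0 : ℝ := min δ1 (r / 2) with hδ0
      have hδ0pos : 0 < δ0 := lt_min hδ1 (by positivity)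
      have key := E.est_loc C W Φ β hEE y (J.a y + κ / 2) (κ / 2) δ0 hm (by positivity) hδ0pos ?_
      · obtain ⟨l0, hl0, hl⟩ := key
        refine ⟨l0, hl0, fun l hl1 hl2 => ?_⟩
        obtain ⟨δ, hδ, hae⟩ := hl l hl1 hl2
        refine ⟨δ, hδ, ?_⟩
        filter_upwards [hae] with z hz hzc
        have h3 := hz hzc
        have h4 : J.a y + κ / 2 + κ / 2 = J.a y + κ := by ring
        rw [h4] at h3
        exact h3
      · intro z hz
        have hzs : sq (z - y) ≤ δ0 ^ 2 := hz
        constructor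
        · refine (hball ?_).le
          have h5 : (z.1 - y.1) ^ 2 ≤ δ0 ^ 2 := by
            have : sq (z - y) = (z.1 - y.1) ^ 2 + (z.2 - y.2) ^ 2 := rfl
            nlinarith [sq_nonneg (z.2 - y.2)]
          have h6 : (z.2 - y.2) ^ 2 ≤ δ0 ^ 2 := by
            have : sq (z - y) = (z.1 - y.1) ^ 2 + (z.2 - y.2) ^ 2 := rfl
            nlinarith [sq_nonneg (z.1 - y.1)]
          have h7 := abs_le_of_sq_le_sq h5 hδ0pos.le
          have h8 := abs_le_of_sq_le_sq h6 hδ0pos.le
          have h9 : δ0 ≤ r / 2 := min_le_right _ _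
          rw [Prod.dist_eq, Real.dist_eq, Real.dist_eq]
          exact max_lt (by linarith) (by linarith)
        · intro h hh
          refine hnear y hy z ?_ h (le_trans hh (min_le_left _ _))
          exact le_trans hzs (pow_le_pow_left₀ hδ0pos.le (min_le_left _ _) 2)
    · refine ⟨1, one_pos, fun l _ _ => ⟨1, one_pos, ?_⟩⟩
      filter_upwards [dpp_ae_plane C W hC] with z hz _
      have h3 := dpp_le C M W hC hM hupp z (Dpp W z) hz
      have h4 : -1 / M ≤ 0 := div_nonpos_of_nonpos_of_nonneg (by norm_num) hM.le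
      exact le_max_of_le_left (by linarith)

end Pool.Agent.MP_4eca41
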