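import Pool.Agent.Work.MP_4eca41_an.F.FS3
import Pool.Agent.Work.MP_4eca41_an.F.FRA
import Pool.Agent.Work.MP_4eca41_an.F.FRB
import Pool.Agent.Work.MP_4eca41_an.F.FSign
import Pool.Agent.Work.MP_4eca41_an.F.FLim
import Pool.Agent.Work.MP_4eca41_an.F.FLow
import Pool.Agent.Work.MP_4eca41_an.F.FUp
import Pool.Agent.Work.MP_4eca41_an.F.FExp
import Pool.Agent.Work.MP_4eca41_an.T.Glue

/-!
# Block F (assembly), paper section F

PROOF.  `C11 C W` (`c11_of_ext`), `M` from `Sm.upp`, `CK` from `exists_KD`.  `exists_P_S3`: `P`, `S3`.  `σ` = minimum of `1/4`, the `σ0` of `h11_neg` (for `C, W, M, CK`) and of `w2_close` (for `η`).  `exists_RA`, `exists_RB`, `exists_KD`: all data `D : FData`, `D.Ok`.  `W2 := D.w2`.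
`T.glue` with `K = S3`, `g = w2`, `J`: `w2_exp`, `w2_c2`, and the limit of the local second differences: for `y0 ∈ S3`, `κ`: `f_lim`, `f_low`, `f_up` give `δ` with: for `z ∉ S3` near `y0` and `z.1 ∉ P`: `|H11 z - J.a y0| ≤ κ`; for `z ∉ S3` with `z.1 ∈ P` the same (non strict) inequality by continuity of `H11` on the open set `S3ᶜ` (`h_cont`) since `P` is closed with
empty interior (points `z' → z` with `z'.1 ∉ P`).  `|H12 z - J.b y0| ≤ κ`, `|H22 z - J.c y0| ≤ κ` (`J.c y0 = 0`).  Together with `c2_local` this is the hypothesis `hl` of `T.glue` (with `cb y δ ⊆` sup ball).  So `ContDiff ℝ 2 w2`.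
Convexity in `t`: for every `z` (on or off `S3`) liminf of `D2 w2 (0,k) z/k^2` is `≥ 0`: off `S3` by `c2_local`, `h22_nonneg`; on `S3` by `w2_exp` (`J.c = 0`): `t1_convex` (T1).  Concavity in `p`: pointwise `D2 w2 (k,0) z ≤ (-c + κ) k^2` for small `k` with `c = min (1/(4M)) (min_{S3} (-J.a)) > 0` (off `S3`: `c2_local`, `h11_neg`; on `S3`: `w2_exp`; `J.a < 0` on the compact `S3` because
`J.a = β ≤ -c0`), hence `D2 w2 (k,0) z ≤ -c k^2` for all `k` (`lower_of_pointwise` applied to `-w2`).  `w2 = W` on `S3` (`w2_eqOn`), `Dp w2 y = J.p y` by `w2_exp` with `v = (k,0)`: `HasDerivAt`.  `|w2 - W| ≤ η` (`w2_close`).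
-/

set_option autoImplicit false

open Set MeasureTheory

namespace Pool.Agent.MP_4eca41

private theorem bf_sq_nn (v : ℝ × ℝ) : 0 ≤ sq v := by
  unfold sq
  positivity

private theorem bf_cb {z y : ℝ × ℝ} {δ : ℝ} (hδ : 0 ≤ δ) (h : z ∈ cb y δ) : dist z y ≤ δ := by
  have h1 : (z.1 - y.1) ^ 2 + (z.2 - y.2) ^ 2 ≤ δ ^ 2 := h
  rw [Prod.dist_eq, Real.dist_eq, Real.dist_eq]
  refine max_le ?_ ?_
  · refine abs_le_of_sq_le_sq ?_ hδ
    nlinarith [sq_nonneg (z.2 - y.2)]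
  · refine abs_le_of_sq_le_sq ?_ hδ
    nlinarith [sq_nonneg (z.1 - y.1)]

/-- limits of the second order coefficients at `S3` -/
private theorem bf_near (D : FData) (h : D.Ok) (y0 : ℝ × ℝ) (hy : y0 ∈ D.S3) (κ : ℝ) (hκ : 0 < κ) :
    ∃ δ : ℝ, 0 < δ ∧ ∀ z, z ∉ D.S3 → dist z y0 ≤ δ →
      |D.H11 z - D.J.a y0| ≤ κ ∧ |D.H12 z - D.J.b y0| ≤ κ ∧ |D.H22 z| ≤ κ := by
  obtain ⟨δ1, hδ1, h1⟩ := f_lim D h y0 hy (κ / 2) (by positivity)
  obtain ⟨δ2, hδ2, h2⟩ := f_low D h y0 hy (κ / 2) (by positivity)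
  obtain ⟨δ3, hδ3, h3⟩ := f_up D h y0 hy (κ / 2) (by positivity)
  obtain ⟨δ, hδd⟩ : ∃ δ, δ = min δ1 (min δ2 δ3) := ⟨_, rfl⟩
  have hδ : 0 < δ := by rw [hδd]; exact lt_min hδ1 (lt_min hδ2 hδ3)
  have hd1 : δ ≤ δ1 := by rw [hδd]; exact min_le_left _ _
  have hd2 : δ ≤ δ2 := by rw [hδd]; exact (min_le_right _ _).trans (min_le_left _ _)
  have hd3 : δ ≤ δ3 := by rw [hδd]; exact (min_le_right _ _).trans (min_le_right _ _)
  -- the upper bound away from the lines of `P`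
  have hup : ∀ z, z ∉ D.S3 → z.1 ∉ D.P → dist z y0 ≤ δ → D.H11 z ≤ D.J.a y0 + κ := by
    intro z hz hzP hd
    have e1 := (h1 z hz (hd.trans hd1)).2.2
    have e2 := h3 z hz hzP (hd.trans hd3)
    have e3 := (abs_le.1 e1).2
    linarith
  refine ⟨δ / 2, by positivity, fun z hz hd => ?_⟩
  have hdδ : dist z y0 ≤ δ := by linarith
  have e1 := h1 z hz (hdδ.trans hd1)
  have e2 := h2 z hz (hdδ.trans hd2)
  refine ⟨?_, e1.2.1.trans (by linarith), e1.1.trans (by linarith)⟩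
  have e3 := abs_le.1 e1.2.2
  rw [abs_le]
  refine ⟨by linarith, ?_⟩
  by_contra hcon
  push Not at hcon
  have hlt : D.J.a y0 + κ < D.H11 z := by linarith
  have hop : IsOpen D.S3ᶜ := h.c3.isClosed.isOpen_compl
  have hca : ContinuousAt D.H11 z := ((h_cont D h).1).continuousAt (hop.mem_nhds hz)
  have hv1 : ∀ᶠ z' in nhds z, z' ∈ D.S3ᶜ := hop.mem_nhds hz
  have hv2 : ∀ᶠ z' in nhds z, z' ∈ Metric.ball y0 δ :=
    Metric.isOpen_ball.mem_nhds (by rw [Metric.mem_ball]; linarith)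
  have hev : ∀ᶠ z' in nhds z, D.J.a y0 + κ < D.H11 z' ∧ z' ∈ D.S3ᶜ ∧ z' ∈ Metric.ball y0 δ :=
    (hca.eventually (lt_mem_nhds hlt)).and (hv1.and hv2)
  have hcp : ContinuousAt (fun p : ℝ => (p, z.2)) z.1 := by fun_prop
  have hev2 : ∀ᶠ p in nhds z.1, D.J.a y0 + κ < D.H11 (p, z.2) ∧ (p, z.2) ∈ D.S3ᶜ ∧
      (p, z.2) ∈ Metric.ball y0 δ := hcp.eventually hev
  have hden : Dense D.Pᶜ := interior_eq_empty_iff_dense_compl.1 h.gl.nd
  obtain ⟨U, hU, hUo, hUz⟩ := mem_nhds_iff.1 hev2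
  obtain ⟨p, hpU, hpP⟩ := hden.inter_open_nonempty U hUo ⟨z.1, hUz⟩
  have h5 := hU hpU
  have h6 := hup (p, z.2) h5.2.1 hpP (Metric.mem_ball.1 h5.2.2).le
  exact absurd h5.1 (not_lt.2 h6)

private theorem bf_d2q (J : Jets) (y v : ℝ × ℝ) :
    J.q y v + J.q y (-v) = J.a y * v.1 ^ 2 + 2 * J.b y * v.1 * v.2 + J.c y * v.2 ^ 2 := by
  unfold Jets.q
  simp only [Prod.fst_neg, Prod.snd_neg]
  ring

/-- second order expansion of the second differences at every point -/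
private theorem bf_loc (D : FData) (h : D.Ok) (c : ℝ) (hcn : ∀ z, z ∉ D.S3 → D.H11 z ≤ -c)
    (hca : ∀ y ∈ D.S3, D.J.a y ≤ -c) (z : ℝ × ℝ) :
    ∃ A B E : ℝ, A ≤ -c ∧ 0 ≤ E ∧ ∀ κ : ℝ, 0 < κ → ∃ ρ : ℝ, 0 < ρ ∧ ∀ v : ℝ × ℝ, sq v ≤ ρ ^ 2 →
      |D2 D.w2 v z - (A * v.1 ^ 2 + 2 * B * v.1 * v.2 + E * v.2 ^ 2)| ≤ κ * sq v := by
  by_cases hz : z ∈ D.S3
  · refine ⟨D.J.a z, D.J.b z, D.J.c z, hca z hz, (h.sm.tt z (h.s3 hz)).ge, fun κ hκ => ?_⟩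
    obtain ⟨δ, hδ, h1⟩ := (w2_exp D h).ex (κ / 2) (by positivity)
    refine ⟨δ, hδ, fun v hv => ?_⟩
    have hv' : sq (-v) = sq v := by
      unfold sq
      simp only [Prod.fst_neg, Prod.snd_neg]
      ring
    have a1 := abs_le.1 (h1 z hz v hv)
    have a2 := h1 z hz (-v) (by rw [hv']; exact hv)
    rw [hv', ← sub_eq_add_neg] at a2
    have a3 := abs_le.1 a2
    have a4 := bf_d2q D.J z v
    unfold D2
    rw [abs_le]
    constructor <;> linarith [a1.1, a1.2, a3.1, a3.2]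
  · refine ⟨D.H11 z, D.H12 z, D.H22 z, hcn z hz, h22_nonneg D h z hz, fun κ hκ => ?_⟩
    exact c2_local D h z hz κ hκ

private theorem bf_deriv {g : ℝ × ℝ → ℝ} {K : Set (ℝ × ℝ)} {J : Jets} (hE : Exp2 g K J)
    {y : ℝ × ℝ} (hy : y ∈ K) : Dp g y = J.p y := by
  obtain ⟨δ, hδ, h1⟩ := hE.ex 1 one_pos
  have hd : HasDerivAt (fun p => g (p, y.2)) (J.p y) y.1 := by
    rw [hasDerivAt_iff_isLittleO_nhds_zero]
    refine Asymptotics.IsBigO.trans_isLittleO (g := fun k : ℝ => k ^ 2) ?_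
      (Asymptotics.isLittleO_pow_id one_lt_two)
    refine Asymptotics.IsBigO.of_bound (1 + |J.a y| / 2) ?_
    filter_upwards [Metric.ball_mem_nhds (0 : ℝ) hδ] with k hk
    rw [Metric.mem_ball, dist_zero_right, Real.norm_eq_abs] at hk
    have hs : sq ((k, 0) : ℝ × ℝ) = k ^ 2 := by unfold sq; simp
    have hk2 : k ^ 2 ≤ δ ^ 2 := by
      rw [← sq_abs]
      exact pow_le_pow_left₀ (abs_nonneg k) hk.le 2
    have a1 := h1 y hy (k, 0) (by rw [hs]; exact hk2)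
    rw [hs] at a1
    have e1 : y + ((k, 0) : ℝ × ℝ) = (y.1 + k, y.2) := by
      ext <;> simp
    have e2 : J.q y (k, 0) = J.p y * k + J.a y * k ^ 2 / 2 := by
      unfold Jets.q
      simp only
      ring
    rw [e1, e2] at a1
    rw [Real.norm_eq_abs, Real.norm_eq_abs, smul_eq_mul, abs_of_nonneg (sq_nonneg k)]
    have a2 := abs_le.1 a1
    have a3 := neg_abs_le (J.a y)
    have a4 := le_abs_self (J.a y)
    have a5 : J.a y * k ^ 2 ≤ |J.a y| * k ^ 2 := mul_le_mul_of_nonneg_right a4 (sq_nonneg k)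
    have a6 : -|J.a y| * k ^ 2 ≤ J.a y * k ^ 2 := mul_le_mul_of_nonneg_right a3 (sq_nonneg k)
    have e3 : g (y.1, y.2) = g y := rfl
    rw [e3, abs_le]
    constructor <;> nlinarith [a2.1, a2.2]
  exact hd.deriv

theorem blockF (W β : ℝ × ℝ → ℝ) (S : Set (ℝ × ℝ)) (J : Jets) (h : Sm W β S J)
    (ε η : ℝ) (hε : 0 < ε) (hη : 0 < η) :
    ∃ (S3 : Set (ℝ × ℝ)) (W2 : ℝ × ℝ → ℝ), IsCompact S3 ∧ S3 ⊆ S ∧
      volume (S \ S3) < ENNReal.ofReal ε ∧ ContDiff ℝ 2 W2 ∧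
      (∀ p, ConvexOn ℝ univ fun t => W2 (p, t)) ∧
      (∃ c : ℝ, 0 < c ∧ ∀ (y : ℝ × ℝ) (h : ℝ), D2 W2 (h, 0) y ≤ -c * h ^ 2) ∧
      (∀ y ∈ S3, W2 y = W y ∧ Dp W2 y = J.p y) ∧ ∀ y, |W2 y - W y| ≤ η := by
  obtain ⟨Cβ, c0, hc0, hb⟩ := h.bdβ
  obtain ⟨C, hC⟩ := c11_of_ext W β h.cont h.contβ ⟨Cβ, fun y => (hb y).1⟩ h.cls h.upp
  obtain ⟨M, hM, hu⟩ := h.upp
  obtain ⟨CK, hCK, hKD⟩ := exists_KD
  obtain ⟨P, S3, hgl, h3c, h3s, h3P, h3v, hpd, hleb⟩ := exists_P_S3 W β S J h ε hε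
  obtain ⟨σ1, hσ1, hneg⟩ := h11_neg C W hC M CK hM hCK
  obtain ⟨σ2, hσ2, hclose⟩ := w2_close C W hC η hη
  obtain ⟨σ, hσd⟩ : ∃ σ, σ = min (1 / 4) (min σ1 σ2) := ⟨_, rfl⟩
  have hσ : 0 < σ := by rw [hσd]; exact lt_min (by norm_num) (lt_min hσ1 hσ2)
  have hs4 : σ ≤ 1 / 4 := by rw [hσd]; exact min_le_left _ _
  have hs1 : σ ≤ σ1 := by rw [hσd]; exact (min_le_right _ _).trans (min_le_left _ _)
  have hs2 : σ ≤ σ2 := by rw [hσd]; exact (min_le_right _ _).trans (min_le_right _ _)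
  obtain ⟨r, r1, r2, hRA⟩ := exists_RA (Dpp W) (dpp_meas C W hC) C (dpp_bd C W hC) P hgl σ hσ
  obtain ⟨rh, rp, rt, rpp, rpt, rtt, hRB⟩ := exists_RB W β S S3 J h h3c h3s σ hσ
  obtain ⟨Kp, Kt, Kpp, Kpt, Ktt, hK⟩ := hKD W J S3 rh rp rt rpp rpt rtt σ h3c.isClosed
    (by linarith) hRB
  obtain ⟨D, hDd⟩ : ∃ D : FData, D = ⟨W, β, J, S, S3, P, r, r1, r2, rh, rp, rt, rpp, rpt, rtt,
    Kp, Kt, Kpp, Kpt, Ktt, C, M, CK, σ⟩ := ⟨_, rfl⟩
  have hOk : D.Ok := by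
    rw [hDd]
    exact
      { sm := h, c11 := hC, M0 := hM, upp := hu, gl := hgl, c3 := h3c, s3 := h3s, s3P := h3P,
        pd := hpd, leb := hleb, σ0 := hσ, σ4 := hs4, ra := hRA, rb := hRB, kd := hK }
  have eW : D.W = W := by rw [hDd]
  have eJ : D.J = J := by rw [hDd]
  have eS : D.S3 = S3 := by rw [hDd]
  have eC : D.C = C := by rw [hDd]
  have eM : D.M = M := by rw [hDd]
  have eK : D.CK = CK := by rw [hDd]
  have eσ : D.σ = σ := by rw [hDd]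
  obtain ⟨c, hcd⟩ : ∃ c, c = min (1 / (4 * M)) c0 := ⟨_, rfl⟩
  have hc : 0 < c := by rw [hcd]; exact lt_min (by positivity) hc0
  have hcM : c ≤ 1 / (4 * M) := by rw [hcd]; exact min_le_left _ _
  have hcc : c ≤ c0 := by rw [hcd]; exact min_le_right _ _
  have hcn : ∀ z, z ∉ D.S3 → D.H11 z ≤ -c := by
    intro z hz
    have h1 := hneg D hOk eW eC eM eK (by rw [eσ]; exact hs1) z hz
    rw [neg_div] at h1
    linarith
  have hca : ∀ y ∈ D.S3, D.J.a y ≤ -c := by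
    intro y hy
    rw [eS] at hy
    rw [eJ, ← h.eqβ y (h3s hy)]
    have := (hb y).2
    linarith
  have hloc := bf_loc D hOk c hcn hca
  have hE : Exp2 D.w2 D.S3 D.J := w2_exp D hOk
  have hcd2 : ContDiff ℝ 2 D.w2 := by
    refine T.glue D.S3 hOk.c3 D.w2 D.J hE (w2_c2 D hOk) ?_
    intro y hy κ hκ
    obtain ⟨δ, hδ, h1⟩ := bf_near D hOk y hy (κ / 4) (by positivity)
    refine ⟨δ, hδ, fun z hz hzS => ?_⟩
    obtain ⟨e1, e2, e3⟩ := h1 z hzS (bf_cb hδ.le hz)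
    obtain ⟨ρ, hρ, h2⟩ := c2_local D hOk z hzS (κ / 4) (by positivity)
    refine ⟨ρ, hρ, fun v hv => ?_⟩
    have h3 := h2 v hv
    have hcy : D.J.c y = 0 := hOk.sm.tt y (hOk.s3 hy)
    rw [hcy]
    have a1 : |(D.H11 z - D.J.a y) * v.1 ^ 2| ≤ κ / 4 * v.1 ^ 2 := by
      rw [abs_mul, abs_of_nonneg (sq_nonneg v.1)]
      exact mul_le_mul_of_nonneg_right e1 (sq_nonneg _)
    have a3 : |D.H22 z * v.2 ^ 2| ≤ κ / 4 * v.2 ^ 2 := by
      rw [abs_mul, abs_of_nonneg (sq_nonneg v.2)]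
      exact mul_le_mul_of_nonneg_right e3 (sq_nonneg _)
    have a2 : |(D.H12 z - D.J.b y) * (2 * (v.1 * v.2))| ≤ κ / 4 * (v.1 ^ 2 + v.2 ^ 2) := by
      rw [abs_mul]
      have b1 : |2 * (v.1 * v.2)| ≤ v.1 ^ 2 + v.2 ^ 2 := by
        rw [abs_le]
        constructor <;> nlinarith [sq_nonneg (v.1 + v.2), sq_nonneg (v.1 - v.2)]
      exact mul_le_mul e2 b1 (abs_nonneg _) (by positivity)
    have e : D2 D.w2 v z - (D.J.a y * v.1 ^ 2 + 2 * D.J.b y * v.1 * v.2 + 0 * v.2 ^ 2) =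
        (D2 D.w2 v z - (D.H11 z * v.1 ^ 2 + 2 * D.H12 z * v.1 * v.2 + D.H22 z * v.2 ^ 2)) +
        (D.H11 z - D.J.a y) * v.1 ^ 2 + (D.H12 z - D.J.b y) * (2 * (v.1 * v.2)) +
        D.H22 z * v.2 ^ 2 := by ring
    rw [e]
    have b1 := abs_le.1 h3
    have b2 := abs_le.1 a1
    have b3 := abs_le.1 a2
    have b4 := abs_le.1 a3
    have hsv : sq v = v.1 ^ 2 + v.2 ^ 2 := rfl
    rw [hsv] at b1 ⊢
    have hn1 : 0 ≤ κ * v.1 ^ 2 := by positivity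
    have hn2 : 0 ≤ κ * v.2 ^ 2 := by positivity
    rw [abs_le]
    constructor <;> nlinarith [b1.1, b1.2, b2.1, b2.2, b3.1, b3.2, b4.1, b4.2]
  refine ⟨S3, D.w2, h3c, h3s, h3v, hcd2, ?_, ⟨c, hc, ?_⟩, ?_, ?_⟩
  · intro p
    refine t1_convex _ (hcd2.continuous.comp (by fun_prop)) ?_
    intro t κ hκ
    obtain ⟨A, B, E, -, hE0, h1⟩ := hloc (p, t)
    obtain ⟨ρ, hρ, h2⟩ := h1 κ hκ
    refine ⟨ρ, hρ, fun k hk0 hk => ?_⟩
    have hs : sq ((0, k) : ℝ × ℝ) = k ^ 2 := by unfold sq; simp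
    have h3 := h2 (0, k) (by rw [hs]; exact pow_le_pow_left₀ hk0.le hk.le 2)
    rw [hs] at h3
    have e1 : D2 D.w2 (0, k) (p, t) = d2 (fun t => D.w2 (p, t)) k t := by
      unfold D2 d2
      simp only [Prod.mk_add_mk, Prod.mk_sub_mk, add_zero, sub_zero]
    rw [e1] at h3
    have h4 := (abs_le.1 h3).1
    have h5 : 0 ≤ E * k ^ 2 := by positivity
    simp only at h4
    nlinarith
  · intro y k
    have h1 := lower_of_pointwise (fun z => -D.w2 z) hcd2.continuous.neg c ?_ y k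
    · have e : D2 (fun z => -D.w2 z) (k, 0) y = -D2 D.w2 (k, 0) y := by
        unfold D2
        ring
      rw [e] at h1
      linarith
    · intro z κ hκ
      obtain ⟨A, B, E, hA, -, h1⟩ := hloc z
      obtain ⟨ρ, hρ, h2⟩ := h1 κ hκ
      refine ⟨ρ, hρ, fun k hk0 hk => ?_⟩
      have hs : sq ((k, 0) : ℝ × ℝ) = k ^ 2 := by unfold sq; simp
      have h3 := h2 (k, 0) (by rw [hs]; exact pow_le_pow_left₀ hk0.le hk.le 2)
      rw [hs] at h3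
      have h4 := (abs_le.1 h3).2
      have e : D2 (fun z => -D.w2 z) (k, 0) z = -D2 D.w2 (k, 0) z := by
        unfold D2
        ring
      rw [e]
      simp only at h4
      have h5 : A * k ^ 2 ≤ -c * k ^ 2 := mul_le_mul_of_nonneg_right hA (sq_nonneg k)
      nlinarith
  · intro y hy
    rw [← eS] at hy
    refine ⟨?_, ?_⟩
    · rw [w2_eqOn D hOk y hy, eW]
    · rw [bf_deriv hE hy, eJ]
  · intro y
    have h1 := hclose D hOk eW eC (by rw [eσ]; exact hs2) y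
    rw [eW] at h1
    exact h1

end Pool.Agent.MP_4eca41
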