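import Pool.Agent.Work.MP_4eca41_an.Defs
import Pool.Agent.Work.MP_4eca41_an.G.GMap
import Pool.Agent.Work.MP_4eca41_an.G.GSup
import Pool.Agent.Work.MP_4eca41_an.G.GC2

/-!
# Block G (inverse partial Legendre transform of a C^2 function), paper section G

PROOF.  `P` from `G.maxi`; `G.sup_eq` (with `D2 W2 (h,0) ≤ -c h^2 ≤ 0`) at `p0 = P z`: `PU W2 z = W2 (P z, z.2) + P z * z.1` for all `z`: `C^2` by `G.c2`.  Convexity: `PU W2 z ≥ W2 (p, z.2) + p * z.1` for all `p` (second part of `sup_eq`); for `x, y`, `z = a x + b y`, `p = P z`: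
`PU W2 z = W2 (p, z.2) + p * z.1 ≤ a (W2 (p, x.2) + p * x.1) + b (W2 (p, y.2) + p * y.1) ≤ a * PU W2 x + b * PU W2 y` by `hc p`.  Third claim: `sup_eq` at `z = (-Dp W2 y, y.2)`, `p0 = y.1`.
-/

set_option autoImplicit false

open Set MeasureTheory

namespace Pool.Agent.MP_4eca41

theorem blockG (W2 : ℝ × ℝ → ℝ) (h2 : ContDiff ℝ 2 W2)
    (hc : ∀ p, ConvexOn ℝ univ fun t => W2 (p, t))
    (hs : ∃ c : ℝ, 0 < c ∧ ∀ (y : ℝ × ℝ) (h : ℝ), D2 W2 (h, 0) y ≤ -c * h ^ 2) :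
    ContDiff ℝ 2 (PU W2) ∧ ConvexOn ℝ univ (PU W2) ∧
      ∀ y : ℝ × ℝ, PU W2 (-Dp W2 y, y.2) = W2 y - y.1 * Dp W2 y := by
  obtain ⟨P, hP, hiff⟩ := G.maxi W2 h2 hs
  have he : ∀ z : ℝ × ℝ, Dp W2 (P z, z.2) = -z.1 := fun z => (hiff z (P z)).2 rfl
  have hs' : ∀ (y : ℝ × ℝ) (h : ℝ), D2 W2 (h, 0) y ≤ 0 := by
    obtain ⟨c, hc0, hc1⟩ := hs
    intro y h
    have h1 := hc1 y h
    have h2 : 0 ≤ c * h ^ 2 := by positivity
    linarith
  have hf : ∀ z, PU W2 z = W2 (P z, z.2) + P z * z.1 := fun z =>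
    (G.sup_eq W2 h2 hs' z (P z) (he z)).1
  have hle : ∀ z p, W2 (p, z.2) + p * z.1 ≤ PU W2 z := fun z =>
    (G.sup_eq W2 h2 hs' z (P z) (he z)).2
  refine ⟨?_, ⟨convex_univ, fun x _ y _ a b ha hb hab => ?_⟩, fun y => ?_⟩
  · rw [funext hf]
    exact G.c2 W2 h2 P hP he
  · have h3 := (hc (P (a • x + b • y))).2 (mem_univ x.2) (mem_univ y.2) ha hb hab
    have h4 := hf (a • x + b • y)
    have h5 := mul_le_mul_of_nonneg_left (hle x (P (a • x + b • y))) ha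
    have h6 := mul_le_mul_of_nonneg_left (hle y (P (a • x + b • y))) hb
    simp only [smul_eq_mul, Prod.snd_add, Prod.smul_snd, Prod.fst_add, Prod.smul_fst] at h3 h4 ⊢
    rw [h4]
    nlinarith
  · have h3 := (G.sup_eq W2 h2 hs' (-Dp W2 y, y.2) y.1 (by simp)).1
    rw [h3]
    show W2 (y.1, y.2) + y.1 * (-Dp W2 y) = W2 y - y.1 * Dp W2 y
    ring

end Pool.Agent.MP_4eca41
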