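import Pool.Agent.Work.MP_4eca41_an.Defs
import Pool.Agent.Work.MP_4eca41_an.R0.PkE
import Pool.Agent.Work.MP_4eca41_an.R0.UkE
import Pool.Agent.Work.MP_4eca41_an.R0.SumB
import Pool.Agent.Work.MP_4eca41_an.R0.RkE
import Pool.Agent.Work.MP_4eca41_an.R0.ExpG
import Pool.Agent.Work.MP_4eca41_an.R0.ConvP
import Pool.Agent.Work.MP_4eca41_an.T.MolC
import Pool.Agent.Work.MP_4eca41_an.T.Glue

/-!
# Block R0 (rank zero part), paper section R0
-/

set_option autoImplicit false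

open Set MeasureTheory

namespace Pool.Agent.MP_4eca41

/-- the final smoothing: a convex function of class `C^2` from the data of R0.7 -/
theorem R0.smooth {U : ℝ × ℝ → ℝ} {Γ : Set (ℝ × ℝ)} {Tg : ℝ × ℝ → ℝ × ℝ} (vk : R0.Vk U Γ Tg)
    {η : ℝ} (hη : 0 < η) (hη1 : η ≤ 1) :
    ∃ g : ℝ × ℝ → ℝ, ConvexOn ℝ univ g ∧ ContDiff ℝ 2 g ∧ (∀ z ∈ Γ, g z = U z) ∧
      ∀ z, g z ≤ U z + η := by
  obtain ⟨t, r, rk⟩ := R0.rk_ex vk hη hη1
  have hUc : Continuous U := R0.continuous_of_convex vk.conv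
  have hrc : Continuous r := rk.smooth.continuous
  have hE := R0.exp_gam vk rk hη1
  have hopen : IsOpen Γᶜ := vk.cG.isClosed.isOpen_compl
  have hsm : ContDiffOn ℝ 2 (T.mol2 U r) Γᶜ :=
    T.mol2_contDiffOn U r hUc Γᶜ hopen rk.smooth.contDiffOn fun z hz => (rk.pos z hz).1
  have hlow : ∀ z, z ∉ Γ → ∃ ρ : ℝ, 0 < ρ ∧ ∀ v : ℝ × ℝ, sq v ≤ ρ ^ 2 →
      0 ≤ D2 (T.mol2 U r) v z := by
    intro z hz
    obtain ⟨ρ, hρ, h⟩ := R0.pt_low rk hη1 hz
    exact ⟨ρ, hρ, fun v hv => R0.mol_D2_low hUc fun s hs => h v s hv hs⟩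
  have hC2 : ContDiff ℝ 2 (T.mol2 U r) := by
    refine T.glue Γ vk.cG (T.mol2 U r) _ hE hsm ?_
    intro y hy κ hκ
    obtain ⟨δ, hδ, h⟩ := R0.pt_upp vk rk hη1 hκ
    refine ⟨δ, hδ, fun z hz hzΓ => ?_⟩
    obtain ⟨ρ1, hρ1, h1⟩ := h y hy z hz hzΓ
    obtain ⟨ρ2, hρ2, h2⟩ := hlow z hzΓ
    refine ⟨min ρ1 ρ2, lt_min hρ1 hρ2, fun v hv => ?_⟩
    have hv1 : sq v ≤ ρ1 ^ 2 :=
      hv.trans (pow_le_pow_left₀ (lt_min hρ1 hρ2).le (min_le_left _ _) 2)
    have hv2 : sq v ≤ ρ2 ^ 2 :=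
      hv.trans (pow_le_pow_left₀ (lt_min hρ1 hρ2).le (min_le_right _ _) 2)
    have a1 : D2 (T.mol2 U r) v z ≤ κ * sq v := R0.mol_D2_upp hUc fun s hs => h1 v s hv1 hs
    have a2 := h2 v hv2
    simp only [zero_mul, mul_zero, add_zero, sub_zero]
    rw [abs_of_nonneg a2]
    exact a1
  have hgU : ∀ z ∈ Γ, T.mol2 U r z = U z := fun z hz => R0.mol_zero (rk.zero z hz)
  have hge : ∀ y ∈ Γ, ∀ z, U y + R0.dot (Tg y) (z - y) ≤ T.mol2 U r z := fun y hy z =>
    R0.mol_ge hUc fun w => vk.tan y hy w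
  refine ⟨T.mol2 U r, ?_, hC2, hgU, ?_⟩
  · refine R0.convex_plane hC2.continuous ?_
    intro z κ hκ
    by_cases hz : z ∈ Γ
    · refine ⟨1, one_pos, fun v _ => ?_⟩
      have h1 := hge z hz (z + v)
      have h2 := hge z hz (z - v)
      have e1 : z + v - z = v := by abel
      have e2 : z - v - z = -v := by abel
      rw [e1] at h1
      rw [e2, R0.dot_neg_right] at h2
      have h3 := R0.sq_nonneg' v
      unfold D2
      rw [hgU z hz]
      nlinarith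
    · obtain ⟨ρ, hρ, h⟩ := hlow z hz
      refine ⟨ρ, hρ, fun v hv => ?_⟩
      have h3 := R0.sq_nonneg' v
      have := h v hv
      nlinarith
  · intro z
    by_cases hz : z ∈ Γ
    · rw [hgU z hz]; linarith
    · refine R0.mol_le hUc fun s hs => ?_
      obtain ⟨hr0, ht0, ht1, hadm⟩ := rk.pos z hz
      have hle := rk.le z hz
      have hrt : r z ≤ t z := by nlinarith [mul_pos ht0 ht0]
      have hmem : z + r z • s ∈ cb z (t z) := by
        rw [R0.mem_cb]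
        have e : z + r z • s - z = r z • s := by abel
        rw [e, R0.sq_smul']
        have h5 : r z ^ 2 ≤ t z ^ 2 := pow_le_pow_left₀ hr0.le hrt 2
        have h6 := R0.sq_nonneg' s
        nlinarith [sq_nonneg (r z)]
      have h7 := hadm.2 _ hmem z (R0.self_mem_cb z (t z))
      have e : z + r z • s - z = r z • s := by abel
      rw [e, R0.sq_smul'] at h7
      have h8 : (t z * (U (z + r z • s) - U z)) ^ 2 ≤ (t z * η) ^ 2 := by
        have h9 : r z ^ 2 * sq s ≤ r z ^ 2 := by nlinarith [sq_nonneg (r z), R0.sq_nonneg' s]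
        have h10 : r z ≤ t z * η := by nlinarith [mul_pos ht0 ht0, mul_pos ht0 hη]
        have h11 : r z ^ 2 ≤ (t z * η) ^ 2 := pow_le_pow_left₀ hr0.le h10 2
        nlinarith
      have h12 : t z * (U (z + r z • s) - U z) ≤ t z * η :=
        (abs_le_of_sq_le_sq' h8 (by positivity)).2
      have h13 := le_of_mul_le_mul_left h12 ht0
      linarith

theorem rank0 (f : ℝ × ℝ → ℝ) (hf : ConvexOn ℝ univ f) (K : Set (ℝ × ℝ)) (hK : IsCompact K)
    (J : Jets) (hE : Exp2 f K J) (h0 : ∀ z ∈ K, J.a z = 0 ∧ J.b z = 0 ∧ J.c z = 0)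
    (K' : Set (ℝ × ℝ)) (hK' : IsCompact K')
    (hT : ∀ z ∈ K', ∀ y ∈ K, f y + J.p y * (z.1 - y.1) + J.s y * (z.2 - y.2) < f z) :
    ∃ u : ℝ × ℝ → ℝ, ConvexOn ℝ univ u ∧ ContDiff ℝ 2 u ∧ (∀ z ∈ K, u z = f z) ∧
      ∀ z ∈ K', u z < f z := by
  have hfc : Continuous f := R0.continuous_of_convex hf
  rcases K.eq_empty_or_nonempty with hKe | hKne
  · -- no point: a constant function
    subst hKe
    obtain ⟨c, hc⟩ : ∃ c : ℝ, ∀ z ∈ K', c < f z := by
      rcases K'.eq_empty_or_nonempty with h | h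
      · exact ⟨0, by simp [h]⟩
      · obtain ⟨z0, hz0, hm⟩ := hK'.exists_isMinOn h hfc.continuousOn
        exact ⟨f z0 - 1, fun z hz => by
          have := hm hz
          simp only [mem_setOf_eq] at this
          linarith⟩
    exact ⟨fun _ => c, convexOn_const c convex_univ, contDiff_const, by simp, fun z hz => hc z hz⟩
  · obtain ⟨L, Γ, Tg, θ, pk, hKΓ, hLf, hLeq, hact⟩ := R0.pk_ex hf hK hKne hE h0
    have hLc : Continuous L := R0.continuous_of_convex pk.conv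
    have hLlt : ∀ z ∈ K', L z < f z := by
      intro z hz
      obtain ⟨y, hy, h⟩ := hact z
      rw [h]
      have := hT z hz y hy
      simp only [R0.dot, Prod.fst_sub, Prod.snd_sub]
      linarith
    obtain ⟨η, hη0, hη1, hη⟩ : ∃ η : ℝ, 0 < η ∧ η ≤ 1 ∧ ∀ z ∈ K', L z + 4 * η ≤ f z := by
      rcases K'.eq_empty_or_nonempty with h | h
      · exact ⟨1, one_pos, le_rfl, by simp [h]⟩
      · obtain ⟨z0, hz0, hm⟩ := hK'.exists_isMinOn h (hfc.sub hLc).continuousOn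
        have h1 : 0 < f z0 - L z0 := by linarith [hLlt z0 hz0]
        refine ⟨min 1 ((f z0 - L z0) / 4), lt_min one_pos (by positivity), min_le_left _ _, ?_⟩
        intro z hz
        have h2 : f z0 - L z0 ≤ f z - L z := hm hz
        have h3 := min_le_right (1 : ℝ) ((f z0 - L z0) / 4)
        linarith
    obtain ⟨u, uk, huL, huK⟩ := R0.uk_ex pk hK' hη0
    obtain ⟨U, vk, hUu, hUK⟩ := R0.vk_ex uk hK' hη0
    obtain ⟨g, hg1, hg2, hg3, hg4⟩ := R0.smooth vk hη0 hη1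
    refine ⟨g, hg1, hg2, ?_, ?_⟩
    · intro z hz
      rw [hg3 z (hKΓ hz), hUu z (hKΓ hz), huL z (hKΓ hz), hLeq z hz]
    · intro z hz
      have h1 := hη z hz
      have h2 := huK z hz
      have h3 := hUK z hz
      have h4 := hg4 z
      linarith

end Pool.Agent.MP_4eca41
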