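import Pool.Agent.Work.MP_4eca41_an.BlkB
import Pool.Agent.Work.MP_4eca41_an.BlkC
import Pool.Agent.Work.MP_4eca41_an.BlkD0
import Pool.Agent.Work.MP_4eca41_an.BlkD1
import Pool.Agent.Work.MP_4eca41_an.BlkD2
import Pool.Agent.Work.MP_4eca41_an.BlkE
import Pool.Agent.Work.MP_4eca41_an.BlkF
import Pool.Agent.Work.MP_4eca41_an.BlkG

/-!
# Rank one part: assembly of the blocks B, C, D0, D1, D2, E, F, G (paper section R1)
-/

set_option autoImplicit false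

open Set MeasureTheory

namespace Pool.Agent.MP_4eca41

private theorem exp2_sub {f : ℝ × ℝ → ℝ} {A B : Set (ℝ × ℝ)} {J : Jets} (h : Exp2 f A J)
    (hBA : B ⊆ A) : Exp2 f B J where
  cp := h.cp.mono hBA
  cs := h.cs.mono hBA
  ca := h.ca.mono hBA
  cb := h.cb.mono hBA
  cc := h.cc.mono hBA
  ex := fun ε hε => by
    obtain ⟨δ, hδ, hh⟩ := h.ex ε hε
    exact ⟨δ, hδ, fun z hz v hv => hh z (hBA hz) v hv⟩

private theorem expAt_of {f : ℝ × ℝ → ℝ} {K : Set (ℝ × ℝ)} {J : Jets} (hE : Exp2 f K J) {z : ℝ × ℝ}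
    (hz : z ∈ K) : ExpAt f z (J.p z) (J.s z) (J.a z) (J.b z) (J.c z) := by
  intro ε hε
  obtain ⟨δ, hδ, h⟩ := hE.ex ε hε
  exact ⟨δ, hδ, fun v hv => h z hz v hv⟩

theorem rank1 (f : ℝ × ℝ → ℝ) (hf : ConvexOn ℝ univ f) (hg : Gr f)
    (K1 : Set (ℝ × ℝ)) (hK1 : IsCompact K1) (J : Jets) (hE : Exp2 f K1 J)
    (h1 : ∀ z ∈ K1, 0 < J.a z ∧ J.a z * J.c z = J.b z ^ 2)
    (K0 : Set (ℝ × ℝ)) (hK0 : IsCompact K0) (J0 : Jets) (hE0 : Exp2 f K0 J0)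
    (h0 : ∀ z ∈ K0, J0.a z = 0 ∧ J0.b z = 0 ∧ J0.c z = 0)
    (K2 : Set (ℝ × ℝ)) (hK2 : IsCompact K2) (J2 : Jets) (hE2 : Exp2 f K2 J2)
    (h2 : ∀ z ∈ K2, 0 < J2.a z ∧ J2.b z ^ 2 < J2.a z * J2.c z) (ε : ℝ) (hε : 0 < ε) :
    ∃ (K1' : Set (ℝ × ℝ)) (u : ℝ × ℝ → ℝ), IsCompact K1' ∧ K1' ⊆ K1 ∧
      volume (K1 \ K1') < ENNReal.ofReal ε ∧ ConvexOn ℝ univ u ∧ ContDiff ℝ 2 u ∧
      (∀ z ∈ K1', u z = f z) ∧ (∀ z ∈ K0 ∪ K2, u z < f z) ∧
      ∀ z ∈ K1', ∀ y ∈ K0, f y + J0.p y * (z.1 - y.1) + J0.s y * (z.2 - y.2) < f z := by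
  have hε2 : 0 < ε / 2 := by positivity
  -- block B
  obtain ⟨K1b, JW, hKb, hKbs, hKbv, hWS, hJW, ⟨C, hC, hmes⟩, hno⟩ :=
    blockB f hf hg K1 hK1 J hE h1 K0 hK0 J0 hE0 h0 (ε / 2) hε2
  -- block C
  obtain ⟨W0, hW0, hs0⟩ := blockC (PL f) (Phi J '' K1) (Phi J '' K1b) JW hWS
  have hEb : Exp2 f K1b J := exp2_sub hE hKbs
  have h1b : ∀ z ∈ K1b, 0 < J.a z ∧ J.a z * J.c z = J.b z ^ 2 := fun z hz => h1 z (hKbs hz)
  have hJWb := fun z (hz : z ∈ K1b) => hJW z (hKbs hz)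
  -- block D0
  have hD0 : ∀ z ∈ K0 ∪ K2, PU W0 z < f z := by
    rintro z (hz | hz)
    · exact blockD0 f hf hg (Phi J '' K1b) JW W0 hW0 hs0 z _ _ _ _ _ (expAt_of hE0 hz)
        (Or.inl (h0 z hz))
    · exact blockD0 f hf hg (Phi J '' K1b) JW W0 hW0 hs0 z _ _ _ _ _ (expAt_of hE2 hz)
        (Or.inr (h2 z hz))
  -- block D1
  obtain ⟨Φ, hUB, η, hη, hΦ⟩ := blockD1 f hf hg K1b hKb J hEb h1b JW hJWb W0 hW0 (K0 ∪ K2)
    (hK0.union hK2) hD0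
  -- block D2
  have hEW : Exp2 (PL f) (Phi J '' K1b) JW := exp2_sub hWS.ex hWS.sub
  have hneg : ∀ y ∈ Phi J '' K1b, JW.a y < 0 := fun y hy => hWS.neg y (hWS.sub hy)
  have htt : ∀ y ∈ Phi J '' K1b, JW.c y = 0 := fun y hy => hWS.tt y (hWS.sub hy)
  obtain ⟨β, W, hExt⟩ := blockD2 (PL f) W0 Φ (Phi J '' K1b) JW hWS.cS hEW.ca hneg hW0 hUB
  -- block E
  have hSm : Sm W β (Phi J '' K1b) JW :=
    blockE (PL f) W0 Φ W β (Phi J '' K1b) JW hWS.cS hEW hneg htt hW0 hUB hExt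
  -- block F
  obtain ⟨S3, W2, hS3c, hS3s, hS3v, hW2c, hW2t, hW2p, hW2e, hW2n⟩ :=
    blockF W β (Phi J '' K1b) JW hSm (ε / 2 / C) (η / 2) (by positivity) (by positivity)
  -- block G
  obtain ⟨hu2, huc, huf⟩ := blockG W2 hW2c hW2t hW2p
  have hcont : ContinuousOn (Phi J) K1b := hEb.cp.prodMk continuous_snd.continuousOn
  have hKc : IsCompact (K1b ∩ Phi J ⁻¹' S3) := by
    have hcl : IsClosed (K1b ∩ Phi J ⁻¹' S3) :=
      hcont.preimage_isClosed_of_isClosed hKb.isClosed hS3c.isClosed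
    exact hKb.of_isClosed_subset hcl inter_subset_left
  refine ⟨K1b ∩ Phi J ⁻¹' S3, PU W2, hKc, fun z hz => hKbs hz.1, ?_, huc, hu2, ?_, ?_, ?_⟩
  · have hsub : K1 \ (K1b ∩ Phi J ⁻¹' S3) ⊆
        (K1 \ K1b) ∪ (K1 ∩ Phi J ⁻¹' (Phi J '' K1b \ S3)) := by
      intro z hz
      by_cases hzb : z ∈ K1b
      · exact Or.inr ⟨hz.1, ⟨z, hzb, rfl⟩, fun h => hz.2 ⟨hzb, h⟩⟩
      · exact Or.inl ⟨hz.1, hzb⟩
    calc volume (K1 \ (K1b ∩ Phi J ⁻¹' S3))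
        ≤ volume ((K1 \ K1b) ∪ (K1 ∩ Phi J ⁻¹' (Phi J '' K1b \ S3))) := measure_mono hsub
      _ ≤ volume (K1 \ K1b) + volume (K1 ∩ Phi J ⁻¹' (Phi J '' K1b \ S3)) :=
          measure_union_le _ _
      _ ≤ volume (K1 \ K1b) + ENNReal.ofReal C * volume (Phi J '' K1b \ S3) := by
          gcongr
          refine hmes _ (hWS.cS.measurableSet.diff hS3c.measurableSet) ?_
          intro y hy
          exact hWS.sub hy.1
      _ < ENNReal.ofReal (ε / 2) + ENNReal.ofReal (ε / 2) := by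
          refine ENNReal.add_lt_add hKbv ?_
          calc ENNReal.ofReal C * volume (Phi J '' K1b \ S3)
              < ENNReal.ofReal C * ENNReal.ofReal (ε / 2 / C) := by
                apply ENNReal.mul_lt_mul_right _ _ hS3v
                · rw [Ne, ENNReal.ofReal_eq_zero]; linarith
                · exact ENNReal.ofReal_ne_top
            _ = ENNReal.ofReal (ε / 2) := by
                rw [← ENNReal.ofReal_mul hC.le]
                congr 1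
                field_simp
      _ = ENNReal.ofReal ε := by
          rw [← ENNReal.ofReal_add hε2.le hε2.le]
          congr 1
          ring
  · intro z hz
    have hy : Phi J z ∈ S3 := hz.2
    have hyS : Phi J z ∈ Phi J '' K1b := ⟨z, hz.1, rfl⟩
    obtain ⟨e1, e2⟩ := hW2e _ hy
    obtain ⟨j1, j2, -⟩ := hJWb z hz.1
    have hWeq : W (Phi J z) = PL f (Phi J z) := by
      apply le_antisymm
      · rw [← hUB.eq _ hyS]; exact hExt.le _
      · rw [← hW0.eq _ hyS]; exact hExt.ge _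
    have h3 := huf (Phi J z)
    have e3 : (-Dp W2 (Phi J z), (Phi J z).2) = z := by
      rw [e2, j2]
      ext <;> simp [Phi]
    rw [e3, e1, hWeq, j1, e2, j2] at h3
    rw [h3]
    simp [Phi]
  · intro z hz
    have h3 : PU W2 z ≤ PU Φ z + η / 2 := by
      refine pu_le_add W2 Φ hUB.gr (η / 2) (fun y => ?_) z
      have h4 := (abs_le.1 (hW2n y)).2
      have h5 := hExt.le y
      linarith
    have h6 := hΦ z hz
    linarith
  · intro z hz y hy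
    exact hno z hz.1 y hy

end Pool.Agent.MP_4eca41
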