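import Pool.Agent.Work.MP_4eca41_an.Defs
import Pool.Agent.Work.MP_4eca41_an.R2.Main

/-!
# Block R2 (rank two part), paper section R2
-/

set_option autoImplicit false

open Set MeasureTheory

namespace Pool.Agent.MP_4eca41

theorem rank2 (f : ℝ × ℝ → ℝ) (hf : ConvexOn ℝ univ f) (K : Set (ℝ × ℝ)) (hK : IsCompact K)
    (J : Jets) (hE : Exp2 f K J) (h0 : ∀ z ∈ K, 0 < J.a z ∧ J.b z ^ 2 < J.a z * J.c z)
    (K' : Set (ℝ × ℝ)) (hK' : IsCompact K') (hd : Disjoint K K') :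
    ∃ u : ℝ × ℝ → ℝ, ConvexOn ℝ univ u ∧ ContDiff ℝ 2 u ∧ (∀ z ∈ K, u z = f z) ∧
      ∀ z ∈ K', u z < f z :=
  R2.main f hf K hK J hE h0 K' hK' hd

end Pool.Agent.MP_4eca41
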