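import Pool.Agent.Work.MP_4eca41_an.BlkA
import Pool.Agent.Work.MP_4eca41_an.BlkR0
import Pool.Agent.Work.MP_4eca41_an.BlkR1
import Pool.Agent.Work.MP_4eca41_an.BlkR2
import Pool.Agent.Work.MP_4eca41_an.Jf.Comb
import Pool.Agent.Work.MP_4eca41_an.Jf.Strict
import Pool.Agent.Work.MP_4eca41_an.A.RotL

/-!
# Main assembly on the plane (paper section J)

PROOF.  `blockA` with `ε / 3`: `θ, f, K0, K1, K2, J`.  `rank1` (all jets `J`, `ε / 3`): `K1', u1`.  `rank0` with `K = K0`, `K' = K1' ∪ K2` (`hT` from the last claim of `rank1` and from `Jf.strict`): `u0`.  `rank2` with `K = K2`, `K' = K0 ∪ K1'` (disjoint: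
`J.a = 0` on `K0`, `J.a J.c = J.b^2` on `K1' ⊆ K1`): `u2`.  `Exp2 f K0 J` etc. restrict.  `f` is continuous (convex, finite dimension).  `Jf.comb`: `g'`.  `g z = g' (rot (-θ) z)`: convex (`A.rot_convex`), `C^2` (linear map).
If `z ∈ disc` and `f0 z ≠ g z`, let `z' = rot (-θ) z ∈ disc` (`sq_rot`), `z = rot θ z'`; if `z' ∈ K0 ∪ K1' ∪ K2` then `g z = g' z' = f z' = f0 (rot θ z') = f0 z`: contradiction.  So the set is contained in
`rot (-θ) ⁻¹' (disc \ (K0 ∪ K1' ∪ K2))`, `disc \ (K0 ∪ K1' ∪ K2) ⊆ (disc \ (K0 ∪ K1 ∪ K2)) ∪ (K1 \ K1')`, measure `< ofReal (ε/3) + ofReal (ε/3)` (`A.rot_mp`: measure preserving; the sets are measurable; `disc` is open).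
-/

set_option autoImplicit false

open Set MeasureTheory

namespace Pool.Agent.MP_4eca41

theorem main_plane (f0 : ℝ × ℝ → ℝ) (h0 : ConvexOn ℝ disc f0) (ε : ℝ) (hε : 0 < ε) :
    ∃ g : ℝ × ℝ → ℝ, ConvexOn ℝ univ g ∧ ContDiff ℝ 2 g ∧
      volume {z ∈ disc | f0 z ≠ g z} < ENNReal.ofReal ε := by
  have hε3 : 0 < ε / 3 := by linarith
  obtain ⟨θ, f, K0, K1, K2, J, hf, hGr, hK0, hK1, hK2, _, _, _, E0, E1, E2, z0, z1, z2, hfe,
    hvol⟩ := blockA f0 h0 (ε / 3) hε3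
  obtain ⟨K1', u1, hK1', hsub, hvol1, hc1, hd1, he1, hl1, ht1⟩ :=
    rank1 f hf hGr K1 hK1 J E1 z1 K0 hK0 J E0 z0 K2 hK2 J E2 z2 (ε / 3) hε3
  have hst := Jf.strict f hf J K0 K2 E0 E2 z0 z2
  obtain ⟨u0, hc0, hd0, he0, hl0⟩ := rank0 f hf K0 hK0 J E0 z0 (K1' ∪ K2) (hK1'.union hK2) (by
    rintro z (hz | hz) y hy
    · exact ht1 z hz y hy
    · exact hst z hz y hy)
  have hdis : Disjoint K2 (K0 ∪ K1') := by
    rw [Set.disjoint_left]
    rintro z hz (hz' | hz')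
    · have h1 := (z2 z hz).1
      rw [(z0 z hz').1] at h1
      exact lt_irrefl _ h1
    · have h1 := (z2 z hz).2
      rw [(z1 z (hsub hz')).2] at h1
      exact lt_irrefl _ h1
  obtain ⟨u2, hc2, hd2, he2, hl2⟩ := rank2 f hf K2 hK2 J E2 z2 (K0 ∪ K1') (hK0.union hK1') hdis
  have hfc : Continuous f := hf.locallyLipschitz.continuous
  obtain ⟨g, hg1, hg2, hg3⟩ := Jf.comb f u0 u1 u2 hfc hc0 hc1 hc2 hd0 hd1 hd2 K0 K1' K2 hK0 hK1'
    hK2 he0 he1 he2 hl0 hl1 hl2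
  refine ⟨fun z => g (rot (-θ) z), A.rot_convex hg1 (-θ), ?_, ?_⟩
  · refine hg2.comp ?_
    unfold rot
    exact ((contDiff_const.mul contDiff_fst).sub (contDiff_const.mul contDiff_snd)).prodMk
      ((contDiff_const.mul contDiff_fst).add (contDiff_const.mul contDiff_snd))
  · have hdisc : IsOpen disc := by
      have : Continuous sq := by
        unfold sq
        fun_prop
      exact isOpen_lt this continuous_const
    have hm : MeasurableSet (disc \ (K0 ∪ K1' ∪ K2)) :=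
      hdisc.measurableSet.diff ((hK0.union hK1').union hK2).measurableSet
    have hs1 : {z ∈ disc | f0 z ≠ g (rot (-θ) z)} ⊆ rot (-θ) ⁻¹' (disc \ (K0 ∪ K1' ∪ K2)) := by
      rintro z ⟨hz, hne⟩
      refine ⟨?_, fun hz' => hne ?_⟩
      · change sq (rot (-θ) z) < 1
        rw [A.sq_rot]
        exact hz
      · have hz'' : rot (-θ) z ∈ K0 ∪ K1 ∪ K2 := by
          rcases hz' with (h | h) | h
          · exact Or.inl (Or.inl h)
          · exact Or.inl (Or.inr (hsub h))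
          · exact Or.inr h
        rw [hg3 _ hz', hfe _ hz'', A.rot_inv']
    have hs2 : disc \ (K0 ∪ K1' ∪ K2) ⊆ (disc \ (K0 ∪ K1 ∪ K2)) ∪ (K1 \ K1') := by
      rintro z ⟨hz, hn⟩
      by_cases h1 : z ∈ K1
      · exact Or.inr ⟨h1, fun h => hn (Or.inl (Or.inr h))⟩
      · refine Or.inl ⟨hz, ?_⟩
        rintro ((h | h) | h)
        · exact hn (Or.inl (Or.inl h))
        · exact h1 h
        · exact hn (Or.inr h)
    calc volume {z ∈ disc | f0 z ≠ g (rot (-θ) z)}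
        ≤ volume (rot (-θ) ⁻¹' (disc \ (K0 ∪ K1' ∪ K2))) := measure_mono hs1
      _ = volume (disc \ (K0 ∪ K1' ∪ K2)) :=
          (A.rot_mp (-θ)).measure_preimage hm.nullMeasurableSet
      _ ≤ volume ((disc \ (K0 ∪ K1 ∪ K2)) ∪ (K1 \ K1')) := measure_mono hs2
      _ ≤ volume (disc \ (K0 ∪ K1 ∪ K2)) + volume (K1 \ K1') := measure_union_le _ _
      _ < ENNReal.ofReal (ε / 3) + ENNReal.ofReal (ε / 3) := ENNReal.add_lt_add hvol hvol1
      _ = ENNReal.ofReal (ε / 3 + ε / 3) := (ENNReal.ofReal_add hε3.le hε3.le).symm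
      _ ≤ ENNReal.ofReal ε := ENNReal.ofReal_le_ofReal (by linarith)

end Pool.Agent.MP_4eca41
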