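import Pool.Agent.Work.MP_4eca41_an.BlkJ

/-!
# Transfer of the main theorem to the Euclidean plane
-/

set_option autoImplicit false

open Set MeasureTheory

namespace Pool.Agent.MP_4eca41.Fin

private noncomputable def eL : EuclideanSpace ℝ (Fin 2) →ₗ[ℝ] ℝ × ℝ where
  toFun x := (x 0, x 1)
  map_add' x y := by simp
  map_smul' r x := by simp

private noncomputable def tL : ℝ × ℝ →ₗ[ℝ] EuclideanSpace ℝ (Fin 2) where
  toFun z := WithLp.toLp 2 ![z.1, z.2]
  map_add' x y := by
    ext i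
    fin_cases i <;> simp
  map_smul' r x := by
    ext i
    fin_cases i <;> simp

private theorem tL_mp : MeasurePreserving tL (volume : Measure (ℝ × ℝ)) volume := by
  have h1 := PiLp.volume_preserving_toLp (Fin 2)
  have h2 : MeasurePreserving (@MeasurableEquiv.finTwoArrow ℝ _).symm
      (volume : Measure (ℝ × ℝ)) volume :=
    (volume_preserving_finTwoArrow ℝ).symm (MeasurableEquiv.finTwoArrow)
  have h3 := h1.comp h2
  have h4 : (@WithLp.toLp 2 (Fin 2 → ℝ)) ∘ (@MeasurableEquiv.finTwoArrow ℝ _).symm = tL := by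
    funext z
    ext i
    fin_cases i <;> rfl
  rw [← h4]
  exact h3

private theorem eL_tL (z : ℝ × ℝ) : eL (tL z) = z := by
  simp [eL, tL]

private theorem tL_eL (x : EuclideanSpace ℝ (Fin 2)) : tL (eL x) = x := by
  ext i
  fin_cases i <;> simp [eL, tL]

private theorem tL_norm (v : ℝ × ℝ) : ‖tL v‖ ^ 2 = sq v := by
  rw [EuclideanSpace.norm_sq_eq]
  simp [tL, sq]

/-- the linear homeomorphism -/
private noncomputable def tE : (ℝ × ℝ) ≃ₗ[ℝ] EuclideanSpace ℝ (Fin 2) :=
  LinearEquiv.ofLinear tL eL (LinearMap.ext tL_eL) (LinearMap.ext eL_tL)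

theorem main (f : EuclideanSpace ℝ (Fin 2) → ℝ) (hf : ConvexOn ℝ (Metric.ball 0 1) f) (ε : ℝ)
    (hε : 0 < ε) :
    ∃ g : EuclideanSpace ℝ (Fin 2) → ℝ, ConvexOn ℝ univ g ∧ ContDiff ℝ 2 g ∧
      volume {x ∈ Metric.ball (0 : EuclideanSpace ℝ (Fin 2)) 1 | f x ≠ g x} <
        ENNReal.ofReal ε := by
  have hpre : tL ⁻¹' (Metric.ball 0 1) = disc := by
    ext z
    rw [mem_preimage, mem_ball_zero_iff]
    show ‖tL z‖ < 1 ↔ sq z < 1
    rw [← tL_norm]
    constructor
    · intro h
      have := norm_nonneg (tL z)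
      nlinarith
    · intro h
      have := norm_nonneg (tL z)
      by_contra hc
      rw [not_lt] at hc
      nlinarith
  have h0 : ConvexOn ℝ disc (f ∘ tL) := by
    have := hf.comp_linearMap tL
    rw [hpre] at this
    exact this
  obtain ⟨g, hg1, hg2, hg3⟩ := main_plane (f ∘ tL) h0 ε hε
  refine ⟨g ∘ eL, ?_, ?_, ?_⟩
  · have := hg1.comp_linearMap eL
    simpa using this
  · have h1 : ContDiff ℝ 2 eL := (LinearMap.toContinuousLinearMap eL).contDiff
    exact hg2.comp h1
  · have h2 : MeasurableEmbedding tL := by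
      have h3 : (tL : ℝ × ℝ → EuclideanSpace ℝ (Fin 2)) = tE.toContinuousLinearEquiv := rfl
      rw [h3]
      exact tE.toContinuousLinearEquiv.toHomeomorph.measurableEmbedding
    rw [← tL_mp.measure_preimage_emb h2]
    refine lt_of_le_of_lt (measure_mono ?_) hg3
    intro z hz
    have h4 : z ∈ tL ⁻¹' (Metric.ball 0 1) := hz.1
    rw [hpre] at h4
    refine ⟨h4, ?_⟩
    have h5 := hz.2
    simp only [Function.comp_apply, eL_tL] at h5
    exact h5

end Pool.Agent.MP_4eca41.Fin
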